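import Pool.Agent.H64.ENC.Complete
import Pool.Agent.H64.Cook.CookLevin

/-!
# The gadget as a list, computed in polynomial time
-/

namespace Pool.Agent.H64.ENC

open Pool.Agent.PPS

/-! ### Polynomial time -/

section dedup

variable {m : Bool} {α β : Type} [Rep α] [Rep β] [DecidableEq β]

theorem size_dedup_le (l : List β) : size l.dedup ≤ size l := by
  induction l with
  | nil => simp
  | cons b l ih =>
    rw [List.dedup_cons]
    split_ifs
    · rw [size_cons]; omega
    · rw [size_cons, size_cons]; omega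

theorem PT.dedup' {l : α → List β} (hl : PT m l) : PT m (fun a => (l a).dedup) := by
  obtain ⟨p, hp⟩ := hl.exists_size_le
  have hf : ∀ l : List β, l.foldr (fun b y => bif decide (b ∈ y) then y else b :: y) [] =
      l.dedup := by
    intro l
    induction l with
    | nil => rfl
    | cons b l ih =>
      rw [List.foldr_cons, ih, List.dedup_cons']
      by_cases h : b ∈ l.dedup <;> simp [h]
  have hs : PT m (fun z : α × (β × List β) =>
      bif decide (z.2.1 ∈ z.2.2) then z.2.2 else z.2.1 :: z.2.2) := by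
    have := Cook.PT.mem' (m := m) (l := fun z : α × (β × List β) => z.2.2)
      (f := fun z : α × (β × List β) => z.2.1) (by fun_prop) (by fun_prop)
    fun_prop
  have := PT.foldr (m := m) (ini := fun _ => []) hl (by fun_prop) hs p (by
      intro a k
      simp only
      rw [hf]
      exact (size_dedup_le _).trans ((size_drop_le _ _).trans (hp a)))
  convert this using 2 with a
  simp only
  rw [hf]

end dedup

/-- The vertices of the base digraph as tuples. -/
def B.tup : B → ℕ × ℕ × Bool × ℕ
  | .x r => (0, r, false, 0)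
  | .y r s k => (1, r, s, k)
  | .p k => (2, k, false, 0)
  | .q k => (3, k, false, 0)
  | .c j => (4, j, false, 0)

theorem B.tup_injective : Function.Injective B.tup := by
  intro a b h
  cases a <;> cases b <;> simp_all [B.tup]

instance : Rep B := ⟨fun b => Rep.rep b.tup, Rep.rep_injective.comp B.tup_injective⟩

section pt

variable {m : Bool} {α : Type} [Rep α]

@[fun_prop]
theorem PT.x' {r : α → ℕ} (hr : PT m r) : PT m (fun a => B.x (r a)) :=
  PT.congr_code (f := fun a => ((0 : ℕ), r a, false, (0 : ℕ))) (by fun_prop) (fun _ => rfl)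

@[fun_prop]
theorem PT.y' {r : α → ℕ} {s : α → Bool} {k : α → ℕ} (hr : PT m r) (hs : PT m s) (hk : PT m k) :
    PT m (fun a => B.y (r a) (s a) (k a)) :=
  PT.congr_code (f := fun a => ((1 : ℕ), r a, s a, k a)) (by fun_prop) (fun _ => rfl)

@[fun_prop]
theorem PT.p' {r : α → ℕ} (hr : PT m r) : PT m (fun a => B.p (r a)) :=
  PT.congr_code (f := fun a => ((2 : ℕ), r a, false, (0 : ℕ))) (by fun_prop) (fun _ => rfl)

@[fun_prop]
theorem PT.q' {r : α → ℕ} (hr : PT m r) : PT m (fun a => B.q (r a)) :=
  PT.congr_code (f := fun a => ((3 : ℕ), r a, false, (0 : ℕ))) (by fun_prop) (fun _ => rfl)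

@[fun_prop]
theorem PT.c' {r : α → ℕ} (hr : PT m r) : PT m (fun a => B.c (r a)) :=
  PT.congr_code (f := fun a => ((4 : ℕ), r a, false, (0 : ℕ))) (by fun_prop) (fun _ => rfl)

end pt

/-! ### The lists -/

/-- A weight as written in the input. -/
abbrev W := Bool × List Bool × List Bool

/-- The weights `-1`, `0`, `1`, `2` as written in the input. -/
def encW (z : ℤ) : W :=
  if z = -1 then (true, [true], [true]) else if z = 0 then (false, [], [true])
    else if z = 1 then (false, [true], [true]) else (false, [false, true], [true])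

theorem value_encW {z : ℤ} (hz : z = -1 ∨ z = 0 ∨ z = 1 ∨ z = 2) : value (encW z) = z := by
  rcases hz with rfl | rfl | rfl | rfl <;> norm_num [value, encW, numeral]

theorem numeral_encW (z : ℤ) : numeral (encW z).2.2 ≠ 0 := by
  unfold encW
  split_ifs <;> simp [numeral]

/-- The occurrences as a function. -/
def occOf (ol : List (ℕ × Bool × ℕ)) (k : ℕ) : ℕ × Bool × ℕ := ol.getD k (0, false, 0)

/-- The base arcs of the variable `r` with the sign `s`. -/
def balY (ol : List (ℕ × Bool × ℕ)) (r : ℕ) (s : Bool) : List ((B × B) × (W × W)) :=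
  ((.x r, .y r s 0), (encW 0, encW 0)) ::
  ((.y r s ol.length, .x (r + 1)), (encW 0, encW 0)) ::
  (List.range ol.length).flatMap fun k =>
    bif decide ((occOf ol k).2 = (s, r)) then
      [((.y r s k, .p k), (encW 0, encW 1)), ((.q k, .y r s (k + 1)), (encW 1, encW 0))]
    else [((.y r s k, .y r s (k + 1)), (encW 0, encW 0))]

/-- The base arcs. -/
def bal (n : ℕ) (ol : List (ℕ × Bool × ℕ)) : List ((B × B) × (W × W)) :=
  ((List.range n).flatMap fun r => balY ol r false ++ balY ol r true) ++
  (((List.range ol.length).flatMap fun k =>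
    [((.p k, .q k), (encW (-1), encW (-1))), ((.q k, .p k), (encW (-1), encW (-1))),
      ((.c (occOf ol k).1, .q k), (encW 0, encW 1)),
      ((.p k, .c ((occOf ol k).1 + 1)), (encW 1, encW 0))]) ++
  [((.x n, .c 0), (encW 0, encW 0))])

theorem mem_balY {ol : List (ℕ × Bool × ℕ)} {n r : ℕ} (hr : r < n) {s : Bool}
    {z : (B × B) × (W × W)} (hz : z ∈ balY ol r s) :
    ∃ w w', BA n ol.length (occOf ol) z.1.1 z.1.2 w w' ∧ z.2 = (encW w, encW w') := by
  simp only [balY, List.mem_cons, List.mem_flatMap, List.mem_range] at hz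
  rcases hz with rfl | rfl | ⟨k, hk, hz⟩
  · exact ⟨_, _, .xy r s hr, rfl⟩
  · exact ⟨_, _, .yx r s hr, rfl⟩
  · by_cases h : (occOf ol k).2 = (s, r)
    · simp only [h, decide_true, cond_true, List.mem_cons, List.not_mem_nil, or_false] at hz
      rcases hz with rfl | rfl
      · exact ⟨_, _, .yp r s k hr hk h, rfl⟩
      · exact ⟨_, _, .qy r s k hr hk h, rfl⟩
    · simp only [h, decide_false, cond_false, List.mem_singleton] at hz
      subst hz
      exact ⟨_, _, .yy r s k hr hk h, rfl⟩

theorem mem_bal {n : ℕ} {ol : List (ℕ × Bool × ℕ)} {z : (B × B) × (W × W)} :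
    z ∈ bal n ol ↔
      ∃ w w', BA n ol.length (occOf ol) z.1.1 z.1.2 w w' ∧ z.2 = (encW w, encW w') := by
  constructor
  · intro hz
    simp only [bal, List.mem_append, List.mem_flatMap, List.mem_range] at hz
    rcases hz with ⟨r, hr, hz | hz⟩ | ⟨k, hk, hz⟩ | hz
    · exact mem_balY hr hz
    · exact mem_balY hr hz
    · simp only [List.mem_cons, List.not_mem_nil, or_false] at hz
      rcases hz with rfl | rfl | rfl | rfl
      · exact ⟨_, _, .pq k hk, rfl⟩
      · exact ⟨_, _, .qp k hk, rfl⟩
      · exact ⟨_, _, .cq _ k hk rfl, rfl⟩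
      · exact ⟨_, _, .pc _ k hk rfl, rfl⟩
    · rw [List.mem_singleton] at hz
      subst hz
      exact ⟨_, _, .xc, rfl⟩
  · rintro ⟨w, w', h, hz⟩
    obtain ⟨⟨a, b⟩, e⟩ := z
    simp only at h hz
    subst hz
    have hY : ∀ r < n, ∀ s, ∀ z ∈ balY ol r s, z ∈ bal n ol := by
      intro r hr s z hz
      simp only [bal, List.mem_append, List.mem_flatMap, List.mem_range]
      left
      refine ⟨r, hr, ?_⟩
      cases s
      · exact .inl hz
      · exact .inr hz
    cases h with
    | xy r s hr => exact hY r hr s _ (by simp [balY])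
    | yx r s hr => exact hY r hr s _ (by simp [balY])
    | yy r s k hr hk h =>
      refine hY r hr s _ ?_
      simp only [balY, List.mem_cons, List.mem_flatMap, List.mem_range]
      right; right
      exact ⟨k, hk, by simp [h]⟩
    | yp r s k hr hk h =>
      refine hY r hr s _ ?_
      simp only [balY, List.mem_cons, List.mem_flatMap, List.mem_range]
      right; right
      exact ⟨k, hk, by simp [h]⟩
    | qy r s k hr hk h =>
      refine hY r hr s _ ?_
      simp only [balY, List.mem_cons, List.mem_flatMap, List.mem_range]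
      right; right
      exact ⟨k, hk, by simp [h]⟩
    | pq k hk =>
      simp only [bal, List.mem_append, List.mem_flatMap, List.mem_range]
      right; left
      exact ⟨k, hk, by simp⟩
    | qp k hk =>
      simp only [bal, List.mem_append, List.mem_flatMap, List.mem_range]
      right; left
      exact ⟨k, hk, by simp⟩
    | xc => simp [bal]
    | cq j k hk h =>
      subst h
      simp only [bal, List.mem_append, List.mem_flatMap, List.mem_range]
      right; left
      exact ⟨k, hk, by simp⟩
    | pc j k hk h =>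
      subst h
      simp only [bal, List.mem_append, List.mem_flatMap, List.mem_range]
      right; left
      exact ⟨k, hk, by simp⟩

/-- The arcs of the gadget with their weights. -/
def hal (n m : ℕ) (ol : List (ℕ × Bool × ℕ)) : List ((F × F) × W) :=
  ((bal n ol).flatMap fun z =>
    [(((z.1.1, none), (z.1.1, some z.1.2)), z.2.1), (((z.1.1, some z.1.2), (z.1.2, none)), z.2.2),
      (((z.1.1, some z.1.2), (z.1.1, none)), encW 2),
      (((z.1.2, none), (z.1.1, some z.1.2)), encW 2)]) ++
  [(((.c m, none), (.x 0, none)), encW (-1)), (((.x 0, none), (.c m, none)), encW 2)]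

theorem mem_hal {n m : ℕ} {ol : List (ℕ × Bool × ℕ)} {z : (F × F) × W} :
    z ∈ hal n m ol ↔ ∃ w, HA n m ol.length (occOf ol) z.1.1 z.1.2 w ∧ z.2 = encW w := by
  constructor
  · intro hz
    simp only [hal, List.mem_append, List.mem_flatMap, List.mem_cons, List.not_mem_nil,
      or_false] at hz
    rcases hz with ⟨y, hy, hz⟩ | hz | hz
    · rw [mem_bal] at hy
      obtain ⟨w, w', h, he⟩ := hy
      obtain ⟨⟨a, b⟩, e⟩ := y
      simp only at h he
      subst he
      rcases hz with rfl | rfl | rfl | rfl
      · exact ⟨_, .fwd1 h, rfl⟩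
      · exact ⟨_, .fwd2 h, rfl⟩
      · exact ⟨_, .rev1 h, rfl⟩
      · exact ⟨_, .rev2 h, rfl⟩
    · subst hz; exact ⟨_, .ts, rfl⟩
    · subst hz; exact ⟨_, .st, rfl⟩
  · rintro ⟨w, h, hz⟩
    obtain ⟨⟨u, v⟩, e⟩ := z
    simp only at h hz
    subst hz
    have key : ∀ {a b : B} {w w' : ℤ} (h : BA n ol.length (occOf ol) a b w w')
        (z : (F × F) × W), z ∈ [(((a, none), (a, some b)), encW w),
          (((a, some b), (b, none)), encW w'), (((a, some b), (a, none)), encW 2),
          (((b, none), (a, some b)), encW 2)] → z ∈ hal n m ol := by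
      intro a b w w' h z hz
      simp only [hal, List.mem_append, List.mem_flatMap]
      left
      exact ⟨((a, b), (encW w, encW w')), mem_bal.2 ⟨w, w', h, rfl⟩, hz⟩
    cases h with
    | fwd1 h => exact key h _ (by simp)
    | fwd2 h => exact key h _ (by simp)
    | rev1 h => exact key h _ (by simp)
    | rev2 h => exact key h _ (by simp)
    | ts => simp [hal]
    | st => simp [hal]

/-- The list of the arcs with their weights, as in the input. -/
def al (n m : ℕ) (ol : List (ℕ × Bool × ℕ)) : List ((List Bool × List Bool) × W) :=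
  ((hal n m ol).map fun z => ((code z.1.1, code z.1.2), z.2)).dedup

/-- The list of the vertices, as in the input. -/
def vl (n m : ℕ) (ol : List (ℕ × Bool × ℕ)) : List (List Bool) :=
  ((al n m ol).map fun z => z.1.1).dedup

theorem mem_al {n m : ℕ} {ol : List (ℕ × Bool × ℕ)} {z : (List Bool × List Bool) × W} :
    z ∈ al n m ol ↔ ∃ u v w, HA n m ol.length (occOf ol) u v w ∧
      z = ((code u, code v), encW w) := by
  simp only [al, List.mem_dedup, List.mem_map]
  constructor
  · rintro ⟨y, hy, rfl⟩
    rw [mem_hal] at hy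
    obtain ⟨w, h, he⟩ := hy
    exact ⟨_, _, w, h, by rw [he]⟩
  · rintro ⟨u, v, w, h, rfl⟩
    exact ⟨((u, v), encW w), mem_hal.2 ⟨w, h, rfl⟩, rfl⟩

theorem nodup_keys (n m : ℕ) (ol : List (ℕ × Bool × ℕ)) :
    ((al n m ol).map Prod.fst).Nodup := by
  refine List.Nodup.map_on ?_ (List.nodup_dedup _)
  intro y hy z hz h
  obtain ⟨u, v, w, h1, rfl⟩ := mem_al.1 hy
  obtain ⟨u', v', w', h1', rfl⟩ := mem_al.1 hz
  simp only [Prod.mk.injEq] at h
  obtain ⟨h2, h3⟩ := h
  obtain rfl := code_injective h2
  obtain rfl := code_injective h3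
  rw [h1.fn h1']

/-! ### Polynomial time -/

section pt

variable {m : Bool} {α : Type} [Rep α]

@[fun_prop]
theorem PT.occOf' {ol : α → List (ℕ × Bool × ℕ)} {k : α → ℕ} (hol : PT m ol) (hk : PT m k) :
    PT m (fun a => occOf (ol a) (k a)) := by
  unfold occOf
  fun_prop

theorem PT.balY' {ol : α → List (ℕ × Bool × ℕ)} {r : α → ℕ} {s : α → Bool} (hol : PT m ol)
    (hr : PT m r) (hs : PT m s) : PT m (fun a => balY (ol a) (r a) (s a)) := by
  unfold balY
  refine PT.cons' (by fun_prop) (PT.cons' (by fun_prop) ?_)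
  exact Cook.PT.flatMap' (m := m) (l := fun a => List.range (ol a).length)
    (f := fun z : α × ℕ => bif decide ((occOf (ol z.1) z.2).2 = (s z.1, r z.1)) then
      [((B.y (r z.1) (s z.1) z.2, B.p z.2), (encW 0, encW 1)),
        ((B.q z.2, B.y (r z.1) (s z.1) (z.2 + 1)), (encW 1, encW 0))]
      else [((B.y (r z.1) (s z.1) z.2, B.y (r z.1) (s z.1) (z.2 + 1)), (encW 0, encW 0))])
    (by fun_prop) (by fun_prop)

theorem PT.bal' {ol : α → List (ℕ × Bool × ℕ)} {n : α → ℕ} (hol : PT m ol)
    (hn : PT m n) : PT m (fun a => bal (n a) (ol a)) := by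
  unfold bal
  refine PT.append' ?_ (PT.append' ?_ ?_)
  · exact Cook.PT.flatMap' (m := m) (l := fun a => List.range (n a))
      (f := fun z : α × ℕ => balY (ol z.1) z.2 false ++ balY (ol z.1) z.2 true)
      (by fun_prop) (PT.append' (PT.balY' (by fun_prop) (by fun_prop) (by fun_prop))
        (PT.balY' (by fun_prop) (by fun_prop) (by fun_prop)))
  · exact Cook.PT.flatMap' (m := m) (l := fun a => List.range (ol a).length)
      (f := fun z : α × ℕ =>
        [((B.p z.2, B.q z.2), (encW (-1), encW (-1))), ((B.q z.2, B.p z.2), (encW (-1), encW (-1))),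
        ((B.c (occOf (ol z.1) z.2).1, B.q z.2), (encW 0, encW 1)),
        ((B.p z.2, B.c ((occOf (ol z.1) z.2).1 + 1)), (encW 1, encW 0))])
      (by fun_prop) (by fun_prop)
  · fun_prop

theorem PT.hal' {ol : α → List (ℕ × Bool × ℕ)} {n j : α → ℕ} (hol : PT m ol)
    (hn : PT m n) (hj : PT m j) : PT m (fun a => hal (n a) (j a) (ol a)) := by
  unfold hal
  refine PT.append' ?_ ?_
  · have h : PT m (fun z : (B × B) × (W × W) =>
      ([(((z.1.1, none), (z.1.1, some z.1.2)), z.2.1),
        (((z.1.1, some z.1.2), (z.1.2, none)), z.2.2),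
        (((z.1.1, some z.1.2), (z.1.1, none)), encW 2),
        (((z.1.2, none), (z.1.1, some z.1.2)), encW 2)] : List ((F × F) × W))) := by
      fun_prop
    exact Cook.PT.flatMap' (m := m) (l := fun a => bal (n a) (ol a))
      (f := fun z : α × ((B × B) × (W × W)) =>
      ([(((z.2.1.1, none), (z.2.1.1, some z.2.1.2)), z.2.2.1),
        (((z.2.1.1, some z.2.1.2), (z.2.1.2, none)), z.2.2.2),
        (((z.2.1.1, some z.2.1.2), (z.2.1.1, none)), encW 2),
        (((z.2.1.2, none), (z.2.1.1, some z.2.1.2)), encW 2)] : List ((F × F) × W)))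
      (PT.bal' hol hn) (h.comp' PT.snd)
  · fun_prop

theorem PT.al' {ol : α → List (ℕ × Bool × ℕ)} {n j : α → ℕ} (hol : PT m ol)
    (hn : PT m n) (hj : PT m j) : PT m (fun a => al (n a) (j a) (ol a)) := by
  unfold al
  refine PT.dedup' ?_
  exact PT.map' (m := m) (l := fun a => hal (n a) (j a) (ol a))
    (f := fun z : α × ((F × F) × W) => ((code z.2.1.1, code z.2.1.2), z.2.2))
    (PT.hal' hol hn hj) (by fun_prop)

theorem PT.vl' {ol : α → List (ℕ × Bool × ℕ)} {n j : α → ℕ} (hol : PT m ol)
    (hn : PT m n) (hj : PT m j) : PT m (fun a => vl (n a) (j a) (ol a)) := by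
  unfold vl
  refine PT.dedup' ?_
  exact PT.map' (m := m) (l := fun a => al (n a) (j a) (ol a))
    (f := fun z : α × ((List Bool × List Bool) × W) => z.2.1.1)
    (PT.al' hol hn hj) (by fun_prop)

end pt

end Pool.Agent.H64.ENC
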