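import Mathlib
import Pool.Agent.PPS.Tree
import Pool.Agent.H64.Cook.Defs

/-!
# Even-nearly conservative arc weights: definitions
-/

namespace Pool.Agent.H64.ENC

open Pool.Agent.PPS

/-- The arcs `(v₀, v₁), (v₁, v₂), …, (v_{k-1}, v₀)` of the closed walk through
`l = [v₀, …, v_{k-1}]`. -/
def arcsOf {α : Type} (l : List α) : List (α × α) := l.zip (l.rotate 1)

/-- A finite digraph `D = (V, A)` without loops, whose vertices are words over `Bool`, together
with a rational weight `c a` of every arc `a` (only the values of `c` on `A` matter). -/
structure WDigraph where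
  /-- the vertices -/
  V : Finset (List Bool)
  /-- the arcs -/
  A : Finset (List Bool × List Bool)
  /-- the weight function -/
  c : List Bool × List Bool → ℚ
  mem_V : ∀ a ∈ A, a.1 ∈ V ∧ a.2 ∈ V
  loopless : ∀ a ∈ A, a.1 ≠ a.2

namespace WDigraph

variable (G : WDigraph)

/-- `l = [v₀, …, v_{k-1}]` is the list of the vertices of a directed cycle: `k ≥ 2`, the vertices
are distinct, and `v₀v₁, …, v_{k-1}v₀` are arcs. -/
def IsCycle (l : List (List Bool)) : Prop :=
  2 ≤ l.length ∧ l.Nodup ∧ ∀ a ∈ arcsOf l, a ∈ G.A

/-- The weight of the closed walk through `l`. -/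
def weight (l : List (List Bool)) : ℚ := ((arcsOf l).map G.c).sum

/-- The weight function is even-nearly conservative: every negative cycle has an even number of
arcs. -/
def EvenNearlyConservative : Prop :=
  ∀ l, G.IsCycle l → G.weight l < 0 → Even l.length

/-- The digraph is symmetric. -/
def Symmetric : Prop := ∀ a ∈ G.A, (a.2, a.1) ∈ G.A

/-- `D` is symmetric, all weights are `-1`, `0`, `1` or `2`, and for some vertices `s` and `t`
every odd cycle passes through the arc `st` or through the arc `ts`. -/
def Restricted : Prop :=
  G.Symmetric ∧ (∀ a ∈ G.A, G.c a = -1 ∨ G.c a = 0 ∨ G.c a = 1 ∨ G.c a = 2) ∧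
    ∃ s t, ∀ l, G.IsCycle l → Odd l.length → (s, t) ∈ arcsOf l ∨ (t, s) ∈ arcsOf l

end WDigraph

/-- The natural number with binary digits `u`, least significant digit first. -/
def numeral (u : List Bool) : ℕ := u.foldr (fun b n => b.toNat + 2 * n) 0

/-- The rational number written as `(b, u, v)`: a sign `b` (`true` stands for `-`), a numerator
`u` and a denominator `v` in binary. -/
def value (w : Bool × List Bool × List Bool) : ℚ :=
  (if w.1 then -1 else 1) * (numeral w.2.1 : ℚ) / (numeral w.2.2 : ℚ)

/-- The word `w` is an encoding of the weighted digraph `G`: it is the code of a pair of lists;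
the first one lists the vertices of `G`, each once; the second one lists the arcs `a` of `G`,
each once, together with their weights, written as `(b, u, v)` with a nonzero denominator.
(`code` is the code of nested pairs and lists of bits by a word: a pair is a node of a binary
tree, a list is a right comb, and trees are written in Polish notation.) -/
def Encodes (w : List Bool) (G : WDigraph) : Prop :=
  ∃ (vl : List (List Bool)) (al : List ((List Bool × List Bool) × (Bool × List Bool × List Bool))),
    w = code (vl, al) ∧
    vl.Nodup ∧ vl.toFinset = G.V ∧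
    (al.map Prod.fst).Nodup ∧ (al.map Prod.fst).toFinset = G.A ∧
    ∀ e ∈ al, numeral e.2.2.2 ≠ 0 ∧ G.c e.1 = value e.2

/-- Some polynomial-time algorithm decides, for the weighted digraphs `G` with the property `C`
(given by any encoding of `G`), whether the weight function of `G` is even-nearly
conservative. -/
def Recognisable (C : WDigraph → Prop) : Prop :=
  ∃ L ∈ P, ∀ (w : List Bool) (G : WDigraph), Encodes w G → C G →
    (w ∈ L ↔ G.EvenNearlyConservative)

end Pool.Agent.H64.ENC
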