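import Pool.Agent.H64.ENC.Sound
import Pool.Agent.H64.ENC.Defs

/-!
# A satisfying assignment gives a negative odd cycle of the gadget
-/

namespace Pool.Agent.H64.ENC

section lists

variable {α : Type}

theorem arcsOf_cons (a : α) (l : List α) : arcsOf (a :: l) = (a :: l).zip (l ++ [a]) := by
  simp [arcsOf]

/-- The arcs of a walk `a :: l` that is closed by going to `e`. -/
theorem forall_mem_zip {R : α → α → Prop} {e : α} : ∀ (l : List α) (a : α),
    (∀ z ∈ (a :: l).zip (l ++ [e]), R z.1 z.2) ↔
    (List.IsChain R (a :: l) ∧ R ((a :: l).getLast (by simp)) e) := by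
  intro l
  induction l with
  | nil => intro a; simp
  | cons b l ih =>
    intro a
    have e0 : (a :: b :: l).getLast (by simp) = (b :: l).getLast (by simp) :=
      List.getLast_cons (by simp)
    rw [List.isChain_cons_cons, e0, and_assoc, ← ih b]
    simp only [List.cons_append, List.zip_cons_cons, List.mem_cons, forall_eq_or_imp]

theorem sum_zip {f : α × α → ℤ} {g : α → ℤ} {e : α} : ∀ (l : List α) (a : α),
    List.IsChain (fun u v => f (u, v) = g v - g u) (a :: l) →
    (((a :: l).zip (l ++ [e])).map f).sum =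
      g ((a :: l).getLast (by simp)) - g a + f ((a :: l).getLast (by simp), e) := by
  intro l
  induction l with
  | nil => intro a _; simp
  | cons b l ih =>
    intro a hc
    rw [List.isChain_cons_cons] at hc
    have := ih b hc.2
    simp only [List.cons_append, List.zip_cons_cons, List.map_cons, List.sum_cons] at this ⊢
    have e0 : (a :: b :: l).getLast (by simp) = (b :: l).getLast (by simp) :=
      List.getLast_cons (by simp)
    rw [this, hc.1, e0]
    ring

theorem parity_chain {g : α → Bool} : ∀ (l : List α) (a : α),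
    List.IsChain (fun u v => g u = !g v) (a :: l) →
    (g ((a :: l).getLast (by simp)) = g a ↔ Even l.length) := by
  intro l
  induction l with
  | nil => intro a _; simp
  | cons b l ih =>
    intro a hc
    rw [List.isChain_cons_cons] at hc
    have := ih b hc.2
    rw [List.getLast_cons (by simp), List.length_cons, Nat.even_add_one, ← this, hc.1]
    cases g ((b :: l).getLast (by simp)) <;> cases g b <;> simp

end lists

variable {n m K : ℕ} {occ : ℕ → ℕ × Bool × ℕ}

section path

variable (n K : ℕ) (occ : ℕ → ℕ × Bool × ℕ) (σ : ℕ → Bool)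

/-- The rank of a vertex of the base digraph. -/
def rkB : B → ℕ
  | .x r => r * (3 * K + 10)
  | .y r _ k => r * (3 * K + 10) + 3 * k + 1
  | .p k => if σ (occ k).2.2 = (occ k).2.1 then n * (3 * K + 10) + 3 * (occ k).1 + 3
      else (occ k).2.2 * (3 * K + 10) + 3 * k + 2
  | .q k => if σ (occ k).2.2 = (occ k).2.1 then n * (3 * K + 10) + 3 * (occ k).1 + 2
      else (occ k).2.2 * (3 * K + 10) + 3 * k + 3
  | .c j => n * (3 * K + 10) + 3 * j + 1

/-- The potential of a vertex of the base digraph. -/
def potB : B → ℤ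
  | .p k => if σ (occ k).2.2 = (occ k).2.1 then -1 else 1
  | .q k => if σ (occ k).2.2 = (occ k).2.1 then 1 else -1
  | _ => 0

/-- The weight of the first half of a base arc. -/
def w1f : B → B → ℤ
  | .p _, .q _ => -1
  | .q _, .p _ => -1
  | .q _, .y _ _ _ => 1
  | .p _, .c _ => 1
  | _, _ => 0

theorem w1f_eq {a b : B} {w w' : ℤ} (h : BA n K occ a b w w') : w1f a b = w := by
  cases h <;> rfl

/-- The rank of a vertex. -/
def rkF : F → ℕ
  | (a, none) => 2 * rkB n K occ σ a
  | (a, some _) => 2 * rkB n K occ σ a + 1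

/-- The potential of a vertex. -/
def potF : F → ℤ
  | (a, none) => potB occ σ a
  | (a, some b) => potB occ σ a + w1f a b

/-- A step of the path. -/
def Stp (m : ℕ) (u v : F) : Prop :=
  ∃ w, HA n m K occ u v w ∧ rkF n K occ σ u < rkF n K occ σ v ∧ w = potF occ σ v - potF occ σ u ∧
    u.2.isSome = !v.2.isSome

open Relation in
theorem reach_of {m : ℕ} {a b : B} {w w' : ℤ} (h : BA n K occ a b w w')
    (hr : rkB n K occ σ a < rkB n K occ σ b) (hw : w + w' = potB occ σ b - potB occ σ a) :
    ReflTransGen (Stp n K occ σ m) (a, none) (b, none) := by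
  have h1 := w1f_eq n K occ h
  refine ReflTransGen.head (b := (a, some b)) ⟨w, .fwd1 h, ?_, ?_, rfl⟩
    (ReflTransGen.single ⟨w', .fwd2 h, ?_, ?_, rfl⟩)
  · simp only [rkF]; omega
  · simp only [potF]; omega
  · simp only [rkF]; omega
  · simp only [potF]; omega

open Relation in
theorem reach_all {m : ℕ}
    (hsat : ∀ j < m, ∃ k < K, (occ k).1 = j ∧ σ (occ k).2.2 = (occ k).2.1) :
    ReflTransGen (Stp n K occ σ m) (.x 0, none) (.c m, none) := by
  have h1 : ∀ r < n, ReflTransGen (Stp n K occ σ m) (.x r, none) (.y r (!(σ r)) 0, none) := by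
    intro r hr
    exact reach_of n K occ σ (.xy r _ hr) (by simp [rkB]) (by simp [potB])
  have h2 : ∀ r < n, ∀ k < K, ReflTransGen (Stp n K occ σ m) (.y r (!(σ r)) k, none)
      (.y r (!(σ r)) (k + 1), none) := by
    intro r hr k hk
    by_cases h : (occ k).2 = (!(σ r), r)
    · have hs : ¬ σ (occ k).2.2 = (occ k).2.1 := by rw [h]; simp
      have hv : (occ k).2.2 = r := by rw [h]
      refine (reach_of n K occ σ (.yp r _ k hr hk h) ?_ ?_).trans
        ((reach_of n K occ σ (.pq k hk) ?_ ?_).trans
        (reach_of n K occ σ (.qy r _ k hr hk h) ?_ ?_))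
      · simp only [rkB, if_neg hs]; rw [hv]; omega
      · simp only [potB, if_neg hs]; norm_num
      · simp only [rkB, if_neg hs]; omega
      · simp only [potB, if_neg hs]; norm_num
      · simp only [rkB, if_neg hs]; rw [hv]; omega
      · simp only [potB, if_neg hs]; norm_num
    · refine reach_of n K occ σ (.yy r _ k hr hk h) ?_ ?_
      · simp only [rkB]; omega
      · simp [potB]
  have h3 : ∀ r < n, ∀ k ≤ K, ReflTransGen (Stp n K occ σ m) (.y r (!(σ r)) 0, none)
      (.y r (!(σ r)) k, none) := by
    intro r hr k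
    induction k with
    | zero => exact fun _ => .refl
    | succ k ih => exact fun hk => (ih (by omega)).trans (h2 r hr k (by omega))
  have h4 : ∀ r < n, ReflTransGen (Stp n K occ σ m) (.x r, none) (.x (r + 1), none) := by
    intro r hr
    refine (h1 r hr).trans ((h3 r hr K le_rfl).trans (reach_of n K occ σ (.yx r _ hr) ?_ ?_))
    · simp only [rkB, Nat.add_mul]; omega
    · simp [potB]
  have h5 : ∀ r ≤ n, ReflTransGen (Stp n K occ σ m) (.x 0, none) (.x r, none) := by
    intro r
    induction r with
    | zero => exact fun _ => .refl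
    | succ r ih => exact fun hr => (ih (by omega)).trans (h4 r (by omega))
  have h6 : ReflTransGen (Stp n K occ σ m) (.x n, none) (.c 0, none) :=
    reach_of n K occ σ .xc (by simp [rkB]) (by simp [potB])
  have h7 : ∀ j < m, ReflTransGen (Stp n K occ σ m) (.c j, none) (.c (j + 1), none) := by
    intro j hj
    obtain ⟨k, hk, hkj, hs⟩ := hsat j hj
    refine (reach_of n K occ σ (.cq j k hk hkj) ?_ ?_).trans
      ((reach_of n K occ σ (.qp k hk) ?_ ?_).trans
      (reach_of n K occ σ (.pc j k hk hkj) ?_ ?_))
    · simp only [rkB, if_pos hs, hkj]; omega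
    · simp only [potB, if_pos hs]; norm_num
    · simp only [rkB, if_pos hs]; omega
    · simp only [potB, if_pos hs]; norm_num
    · simp only [rkB, if_pos hs, hkj]; omega
    · simp only [potB, if_pos hs]; norm_num
  have h8 : ∀ j ≤ m, ReflTransGen (Stp n K occ σ m) (.c 0, none) (.c j, none) := by
    intro j
    induction j with
    | zero => exact fun _ => .refl
    | succ j ih => exact fun hj => (ih (by omega)).trans (h7 j (by omega))
  exact (h5 n le_rfl).trans (h6.trans (h8 m le_rfl))

end path

/-- A satisfying assignment gives a negative odd cycle of the gadget. -/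
theorem complete {wf : F × F → ℤ} (hwf : ∀ u v w, HA n m K occ u v w → wf (u, v) = w)
    {σ : ℕ → Bool} (hsat : ∀ j < m, ∃ k < K, (occ k).1 = j ∧ σ (occ k).2.2 = (occ k).2.1) :
    ∃ l : List F, 2 ≤ l.length ∧ l.Nodup ∧ Odd l.length ∧
      (∀ z ∈ arcsOf l, ∃ w, HA n m K occ z.1 z.2 w) ∧ ((arcsOf l).map wf).sum = -1 := by
  obtain ⟨l, hl, hlast⟩ := List.exists_isChain_cons_of_relationReflTransGen
    (reach_all n K occ σ hsat)
  have hts : HA n m K occ (.c m, none) (.x 0, none) (-1) := .ts
  refine ⟨(.x 0, none) :: l, ?_, ?_, ?_, ?_, ?_⟩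
  · cases l with
    | nil => simp at hlast
    | cons b l => simp
  · have h1 : List.IsChain (fun u v => rkF n K occ σ u < rkF n K occ σ v) ((.x 0, none) :: l) :=
      hl.imp fun u v h => by obtain ⟨w, -, h, -⟩ := h; exact h
    have : IsTrans F (fun u v => rkF n K occ σ u < rkF n K occ σ v) :=
      ⟨fun _ _ _ h h' => h.trans h'⟩
    have h2 := List.isChain_iff_pairwise.1 h1
    exact h2.imp fun {u v} h => by rintro rfl; exact absurd h (lt_irrefl _)
  · have h1 : List.IsChain (fun u v : F => u.2.isSome = !v.2.isSome) ((.x 0, none) :: l) :=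
      hl.imp fun u v h => by obtain ⟨w, -, -, -, h⟩ := h; exact h
    have h2 := (parity_chain l _ h1).1 (by rw [hlast])
    rw [List.length_cons]
    exact h2.add_one
  · rw [arcsOf_cons]
    refine (forall_mem_zip (R := fun u v => ∃ w, HA n m K occ u v w) l _).2 ⟨?_, ?_⟩
    · exact hl.imp fun u v h => by obtain ⟨w, h, -⟩ := h; exact ⟨w, h⟩
    · rw [hlast]; exact ⟨_, hts⟩
  · rw [arcsOf_cons, sum_zip (g := potF occ σ), hlast, hwf _ _ _ hts]
    · simp [potF, potB]
    · exact hl.imp fun u v h => by obtain ⟨w, h, -, h', -⟩ := h; rw [hwf _ _ _ h, h']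

/-- A negative odd cycle of the gadget, given as a list of vertices. -/
theorem sound_list {wf : F × F → ℤ} {l : List F} (h2 : 2 ≤ l.length) (hnd : l.Nodup)
    (hodd : Odd l.length) (ha : ∀ z ∈ arcsOf l, HA n m K occ z.1 z.2 (wf z))
    (hneg : ((arcsOf l).map wf).sum < 0) (hn : ∀ k < K, (occ k).2.2 < n) :
    ∃ σ : ℕ → Bool, ∀ j < m, ∃ k < K, (occ k).1 = j ∧ σ (occ k).2.2 = (occ k).2.1 := by
  have hL : NeZero l.length := ⟨by omega⟩
  let v : ZMod l.length → F := fun i => l[i.val]'(ZMod.val_lt i)
  have hlen : (arcsOf l).length = l.length := by simp [arcsOf]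
  have hnext : ∀ i : ZMod l.length, (v i, v (i + 1)) =
      (arcsOf l)[i.val]'(by rw [hlen]; exact ZMod.val_lt i) := by
    intro i
    simp only [arcsOf, List.getElem_zip, List.getElem_rotate, v]
    congr 2
    rw [ZMod.val_add, ZMod.val_one'' (by omega)]
  refine sound (L := l.length) (v := v) (wt := fun i => wf (v i, v (i + 1))) ?_ ?_ hodd h2 ?_ hn
  · intro i j hij
    have := (hnd.getElem_inj_iff (hi := ZMod.val_lt i) (hj := ZMod.val_lt j)).1 hij
    exact ZMod.val_injective _ this
  · intro i
    rw [hnext]
    have := ha _ (List.getElem_mem (l := arcsOf l) (n := i.val)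
      (by rw [hlen]; exact ZMod.val_lt i))
    convert this using 1
    · rw [← hnext]
    · rw [← hnext]
  · have e : ∑ i : ZMod l.length, wf (v i, v (i + 1)) = ((arcsOf l).map wf).sum := by
      have e1 : ∑ i : ZMod l.length, wf (v i, v (i + 1)) =
          ∑ i ∈ Finset.range l.length, (((arcsOf l).map wf).getD i 0) := by
        refine Finset.sum_nbij' (fun i => i.val) (fun i => (i : ZMod l.length)) ?_ ?_ ?_ ?_ ?_
        · intro i _; simpa using ZMod.val_lt i
        · intro i _; simp
        · intro i _; simp
        · intro i hi; simp only [Finset.mem_range] at hi; exact ZMod.val_cast_of_lt hi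
        · intro i _
          rw [hnext, List.getD_eq_getElem _ _ (by rw [List.length_map, hlen]; exact ZMod.val_lt i),
            List.getElem_map]
      rw [e1]
      have e2 : ∀ l : List ℤ, ∑ i ∈ Finset.range l.length, l.getD i 0 = l.sum := by
        intro l
        induction l with
        | nil => simp
        | cons a l ih => rw [List.length_cons, Finset.sum_range_succ', List.sum_cons, ← ih]; simp [add_comm]
      rw [← e2, List.length_map, hlen]
    rw [e]
    exact hneg

end Pool.Agent.H64.ENC
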