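import Mathlib

/-!
# The gadget digraph of a satisfiability instance

The instance consists of `n` variables, `m` clauses and `K` occurrences of literals: the `k`-th
occurrence is the triple `occ k = (j, s, r)`: in clause `j`, the literal that is true iff the
variable `r` has the value `s`.
-/

namespace Pool.Agent.H64.ENC

/-- The vertices of the base digraph. -/
inductive B
  | x (r : ℕ)
  | y (r : ℕ) (s : Bool) (k : ℕ)
  | p (k : ℕ)
  | q (k : ℕ)
  | c (j : ℕ)
  deriving DecidableEq

/-- The vertices of the subdivided digraph: `(a, none)` is the vertex `a`, and `(a, some b)` is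
the vertex that subdivides the arc `ab`. -/
abbrev F := B × Option B

section defs

variable (n m K : ℕ) (occ : ℕ → ℕ × Bool × ℕ)

/-- The base arcs, with the weights of their two halves. -/
inductive BA : B → B → ℤ → ℤ → Prop
  | xy (r : ℕ) (s : Bool) (hr : r < n) : BA (.x r) (.y r s 0) 0 0
  | yx (r : ℕ) (s : Bool) (hr : r < n) : BA (.y r s K) (.x (r + 1)) 0 0
  | yy (r : ℕ) (s : Bool) (k : ℕ) (hr : r < n) (hk : k < K) (h : (occ k).2 ≠ (s, r)) :
      BA (.y r s k) (.y r s (k + 1)) 0 0
  | yp (r : ℕ) (s : Bool) (k : ℕ) (hr : r < n) (hk : k < K) (h : (occ k).2 = (s, r)) :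
      BA (.y r s k) (.p k) 0 1
  | qy (r : ℕ) (s : Bool) (k : ℕ) (hr : r < n) (hk : k < K) (h : (occ k).2 = (s, r)) :
      BA (.q k) (.y r s (k + 1)) 1 0
  | pq (k : ℕ) (hk : k < K) : BA (.p k) (.q k) (-1) (-1)
  | qp (k : ℕ) (hk : k < K) : BA (.q k) (.p k) (-1) (-1)
  | xc : BA (.x n) (.c 0) 0 0
  | cq (j k : ℕ) (hk : k < K) (h : (occ k).1 = j) : BA (.c j) (.q k) 0 1
  | pc (j k : ℕ) (hk : k < K) (h : (occ k).1 = j) : BA (.p k) (.c (j + 1)) 1 0

/-- The arcs of the gadget, with their weights. -/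
inductive HA : F → F → ℤ → Prop
  | fwd1 {a b : B} {w w' : ℤ} (h : BA n K occ a b w w') : HA (a, none) (a, some b) w
  | fwd2 {a b : B} {w w' : ℤ} (h : BA n K occ a b w w') : HA (a, some b) (b, none) w'
  | rev1 {a b : B} {w w' : ℤ} (h : BA n K occ a b w w') : HA (a, some b) (a, none) 2
  | rev2 {a b : B} {w w' : ℤ} (h : BA n K occ a b w w') : HA (b, none) (a, some b) 2
  | ts : HA (.c m, none) (.x 0, none) (-1)
  | st : HA (.x 0, none) (.c m, none) 2

end defs

variable {n m K : ℕ} {occ : ℕ → ℕ × Bool × ℕ}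

theorem BA.ne {a b : B} {w w' : ℤ} (h : BA n K occ a b w w') : a ≠ b := by
  cases h <;> simp

theorem BA.fn {a b : B} {w w' v v' : ℤ} (h : BA n K occ a b w w') (h' : BA n K occ a b v v') :
    w = v ∧ w' = v' := by
  cases h <;> cases h' <;> simp

theorem HA.ne {u v : F} {w : ℤ} (h : HA n m K occ u v w) : u ≠ v := by
  cases h <;> simp

theorem HA.symm {u v : F} {w : ℤ} (h : HA n m K occ u v w) : ∃ w', HA n m K occ v u w' := by
  cases h with
  | fwd1 h => exact ⟨_, .rev1 h⟩
  | fwd2 h => exact ⟨_, .rev2 h⟩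
  | rev1 h => exact ⟨_, .fwd1 h⟩
  | rev2 h => exact ⟨_, .fwd2 h⟩
  | ts => exact ⟨_, .st⟩
  | st => exact ⟨_, .ts⟩

theorem HA.fn {u v : F} {w w' : ℤ} (h : HA n m K occ u v w) (h' : HA n m K occ u v w') :
    w = w' := by
  cases h with
  | fwd1 h => cases h' with
    | fwd1 h' => exact (h.fn h').1
    | rev2 h' => exact absurd rfl h.ne
  | fwd2 h => cases h' with
    | fwd2 h' => exact (h.fn h').2
    | rev1 h' => exact absurd rfl h.ne
  | rev1 h => cases h' with
    | fwd2 h' => exact absurd rfl h.ne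
    | rev1 h' => rfl
  | rev2 h => cases h' with
    | fwd1 h' => exact absurd rfl h.ne
    | rev2 h' => rfl
  | ts => cases h' with
    | ts => rfl
  | st => cases h' with
    | st => rfl

theorem BA.weights {a b : B} {w w' : ℤ} (h : BA n K occ a b w w') :
    (w = -1 ∨ w = 0 ∨ w = 1) ∧ (w' = -1 ∨ w' = 0 ∨ w' = 1) := by
  cases h <;> simp

theorem HA.weights {u v : F} {w : ℤ} (h : HA n m K occ u v w) :
    w = -1 ∨ w = 0 ∨ w = 1 ∨ w = 2 := by
  cases h with
  | fwd1 h => have := h.weights; omega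
  | fwd2 h => have := h.weights; omega
  | rev1 h => omega
  | rev2 h => omega
  | ts => omega
  | st => omega

/-- An arc other than the two special ones joins a vertex of the base digraph and a subdividing
vertex. -/
theorem HA.kind {u v : F} {w : ℤ} (h : HA n m K occ u v w) :
    (u.2.isSome = !v.2.isSome) ∨ (u = (.c m, none) ∧ v = (.x 0, none) ∧ w = -1) ∨
      (u = (.x 0, none) ∧ v = (.c m, none) ∧ w = 2) := by
  cases h <;> simp

/-- The vertices `p k` and `q k`. -/
def B.pq : B → Bool
  | .p _ => true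
  | .q _ => true
  | _ => false

/-- Is this one of the vertices `p k` and `q k`? -/
def isPQ (u : F) : Bool := u.1.pq && u.2.isNone

theorem HA.not_both {u v : F} {w : ℤ} (h : HA n m K occ u v w) :
    ¬ (isPQ u = true ∧ isPQ v = true) := by
  cases h <;> simp [isPQ, B.pq]

theorem HA.neither {u v : F} {w : ℤ} (h : HA n m K occ u v w) (hu : isPQ u = false)
    (hv : isPQ v = false) : 0 ≤ w ∨ (u = (.c m, none) ∧ v = (.x 0, none) ∧ w = -1) := by
  cases h with
  | fwd1 h => cases h <;> simp_all [isPQ, B.pq]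
  | fwd2 h => cases h <;> simp_all [isPQ, B.pq]
  | rev1 h => simp
  | rev2 h => simp
  | ts => simp
  | st => simp

/-- The partner of `p k` is `q k`, and conversely. -/
def B.other : B → B
  | .p k => .q k
  | .q k => .p k
  | b => b

theorem HA.in_pq {u v : F} {w : ℤ} (h : HA n m K occ u v w) (hv : isPQ v = true) :
    1 ≤ w ∨ (w = -1 ∧ u = (v.1.other, some v.1) ∧ v.2 = none) := by
  cases h with
  | fwd1 h => simp [isPQ] at hv
  | fwd2 h => cases h <;> simp_all [isPQ, B.pq, B.other]
  | rev1 h => simp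
  | rev2 h => simp
  | ts => simp [isPQ, B.pq] at hv
  | st => simp

theorem HA.out_pq {u v : F} {w : ℤ} (h : HA n m K occ u v w) (hu : isPQ u = true) :
    1 ≤ w ∨ (w = -1 ∧ v = (u.1, some u.1.other) ∧ u.2 = none) := by
  cases h with
  | fwd1 h => cases h <;> simp_all [isPQ, B.pq, B.other]
  | fwd2 h => simp [isPQ] at hu
  | rev1 h => simp
  | rev2 h => simp
  | ts => simp [isPQ, B.pq] at hu
  | st => simp

/-- The neighbours of a subdividing vertex. -/
theorem HA.of_mid {a b : B} {v : F} {w : ℤ} (h : HA n m K occ (a, some b) v w) :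
    v = (b, none) ∨ v = (a, none) := by
  cases h with
  | fwd2 h => left; rfl
  | rev1 h => right; rfl

theorem HA.to_mid {a b : B} {v : F} {w : ℤ} (h : HA n m K occ v (a, some b) w) :
    v = (b, none) ∨ v = (a, none) := by
  cases h with
  | fwd1 h => right; rfl
  | rev2 h => left; rfl

end Pool.Agent.H64.ENC
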