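import Pool.Agent.H64.ENC.Reduce
import Pool.Agent.H64.Cook.Verifier
import Pool.Agent.H79.BinArith

/-!
# The weights that are not even-nearly conservative are recognised in `NP`
-/

namespace Pool.Agent.H64.ENC

open Pool.Agent.PPS Pool.Agent.H64.Cook
open Pool.Agent.H79.Est (addB mulB ltB numeral_addB numeral_mulB ltB_iff length_addB)

/-- An arc with its weight, as in the input. -/
abbrev E := (List Bool × List Bool) × W

/-! ### Sums of weights -/

/-- Adding a weight; `(a, b, q)` stands for `(a - b) / q`. -/
def accStep (w : W) (y : List Bool × List Bool × List Bool) : List Bool × List Bool × List Bool :=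
  (addB (mulB y.1 w.2.2) (bif w.1 then [] else mulB y.2.2 w.2.1),
   addB (mulB y.2.1 w.2.2) (bif w.1 then mulB y.2.2 w.2.1 else []),
   mulB y.2.2 w.2.2)

/-- The sum of a list of weights. -/
def acc (l : List W) : List Bool × List Bool × List Bool :=
  l.foldr (fun w y => accStep w y) ([], [], [true])

theorem acc_spec (l : List W) (hl : ∀ w ∈ l, numeral w.2.2 ≠ 0) :
    numeral (acc l).2.2 ≠ 0 ∧ (numeral (acc l).1 : ℚ) - numeral (acc l).2.1 =
      numeral (acc l).2.2 * (l.map value).sum := by
  induction l with
  | nil => simp [acc, numeral]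
  | cons w l ih =>
    obtain ⟨h1, h2⟩ := ih (fun w hw => hl w (List.mem_cons_of_mem _ hw))
    have hw := hl w List.mem_cons_self
    have e : acc (w :: l) = accStep w (acc l) := rfl
    rw [e]
    generalize acc l = y at h1 h2
    obtain ⟨a, b, q⟩ := y
    obtain ⟨s, u, v⟩ := w
    simp only at h1 h2 hw
    have m1 : ∀ x y : List Bool, numeral (mulB x y) = numeral x * numeral y :=
      fun x y => numeral_mulB x y
    have m2 : ∀ x y : List Bool, numeral (addB x y) = numeral x + numeral y :=
      fun x y => numeral_addB x y
    have hn : numeral ([] : List Bool) = 0 := rfl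
    have hv : (numeral v : ℚ) ≠ 0 := by exact_mod_cast hw
    refine ⟨?_, ?_⟩
    · simp only [accStep, m1]
      exact Nat.mul_ne_zero h1 hw
    · simp only [accStep, m1, m2, List.map_cons, List.sum_cons, value]
      cases s
      · simp only [cond_false, m1, hn, Bool.false_eq_true, if_false]
        push_cast
        field_simp
        linear_combination (numeral v : ℚ) * h2
      · simp only [cond_true, m1, hn, if_true]
        push_cast
        field_simp
        linear_combination (numeral v : ℚ) * h2

/-- Is the sum of the weights negative? -/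
def negSum (l : List W) : Bool := ltB (acc l).1 (acc l).2.1

theorem negSum_iff {l : List W} (hl : ∀ w ∈ l, numeral w.2.2 ≠ 0) :
    negSum l = true ↔ (l.map value).sum < 0 := by
  obtain ⟨h1, h2⟩ := acc_spec l hl
  rw [negSum, ltB_iff]
  have h3 : (0 : ℚ) < numeral (acc l).2.2 := by
    have := Nat.pos_of_ne_zero h1
    exact_mod_cast this
  have h4 : (numeral (acc l).1 < numeral (acc l).2.1) ↔
      ((numeral (acc l).1 : ℚ) - numeral (acc l).2.1 < 0) := by
    rw [sub_neg]; norm_cast
  rw [h2] at h4
  rw [show ((l.map value).sum < 0) ↔ ((numeral (acc l).2.2 : ℚ) * (l.map value).sum < 0) from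
    ⟨fun h => mul_neg_of_pos_of_neg h3 h, fun h => (pos_iff_neg_of_mul_neg h).1 h3⟩]
  exact h4

theorem length_mulB_le (u v : List Bool) : (mulB u v).length ≤ u.length + 2 * v.length + 1 := by
  unfold mulB
  cases u with
  | nil => simp
  | cons c l =>
    rw [List.foldr_cons, length_addB, List.length_take]
    have h2 : (bif c then v else []).length ≤ v.length := by cases c <;> simp
    rw [List.length_cons]
    omega

theorem acc_length {S : ℕ} (l : List W)
    (hl : ∀ w ∈ l, w.2.1.length ≤ S ∧ w.2.2.length ≤ S) :
    (acc l).2.2.length ≤ l.length * (2 * S + 1) + 1 ∧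
    (acc l).1.length ≤ l.length * (l.length * (2 * S + 1) + 4 * S + 4) ∧
    (acc l).2.1.length ≤ l.length * (l.length * (2 * S + 1) + 4 * S + 4) := by
  induction l with
  | nil => simp [acc]
  | cons w l ih =>
    obtain ⟨h1, h2, h3⟩ := ih (fun w hw => hl w (List.mem_cons_of_mem _ hw))
    obtain ⟨w1, w2⟩ := hl w List.mem_cons_self
    have e : acc (w :: l) = accStep w (acc l) := rfl
    rw [e, List.length_cons]
    generalize acc l = y at h1 h2 h3
    obtain ⟨a, b, q⟩ := y
    obtain ⟨s, u, v⟩ := w
    simp only at h1 h2 h3 w1 w2
    generalize l.length = n at h1 h2 h3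
    have l1 := length_mulB_le q v
    have l2 := length_mulB_le q u
    have l3 := length_mulB_le a v
    have l4 := length_mulB_le b v
    have key : n * (n * (2 * S + 1) + 4 * S + 4) + (n * (2 * S + 1) + 1) + (4 * S + 3) ≤
        (n + 1) * ((n + 1) * (2 * S + 1) + 4 * S + 4) := by nlinarith
    refine ⟨?_, ?_, ?_⟩
    · simp only [accStep]
      have : (n + 1) * (2 * S + 1) = n * (2 * S + 1) + (2 * S + 1) := by ring
      omega
    · simp only [accStep, length_addB]
      cases s
      · simp only [cond_false]; omega
      · simp only [cond_true, List.length_nil]; omega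
    · simp only [accStep, length_addB]
      cases s
      · simp only [cond_false, List.length_nil]; omega
      · simp only [cond_true]; omega

theorem PT.acc' {m : Bool} : PT m acc := by
  have hs : PT m (fun z : List W × (W × (List Bool × List Bool × List Bool)) =>
      accStep z.2.1 z.2.2) := by
    unfold accStep
    fun_prop
  refine PT.foldr (m := m) (l := fun l : List W => l)
    (s := fun z : List W × (W × (List Bool × List Bool × List Bool)) => accStep z.2.1 z.2.2)
    (ini := fun _ => (([] : List Bool), ([] : List Bool), [true])) (by fun_prop) (by fun_prop) hs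
    (100 * (Polynomial.X + 1) ^ 3) ?_
  intro l k
  have e : (l.drop k).foldr (fun b y => (fun z : List W × (W × (List Bool × List Bool ×
      List Bool)) => accStep z.2.1 z.2.2) (l, (b, y)))
      (([] : List Bool), ([] : List Bool), [true]) = acc (l.drop k) := rfl
  simp only at e ⊢
  rw [e]
  have hlen : (l.drop k).length ≤ size l := by
    rw [List.length_drop]
    have := length_le_size' l
    omega
  have hS : ∀ w ∈ l.drop k, w.2.1.length ≤ size l ∧ w.2.2.length ≤ size l := by
    intro w hw
    have h1 := size_le_of_mem (List.mem_of_mem_drop hw)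
    obtain ⟨s, u, v⟩ := w
    rw [size_pair, size_pair] at h1
    have h2 := length_le_size u
    have h3 := length_le_size v
    simp only
    omega
  obtain ⟨h1, h2, h3⟩ := acc_length (l.drop k) hS
  generalize acc (l.drop k) = y at h1 h2 h3
  obtain ⟨a, b, q⟩ := y
  simp only at h1 h2 h3
  rw [size_pair, size_pair]
  have l1 := size_le_length a
  have l2 := size_le_length b
  have l3 := size_le_length q
  simp only [Polynomial.eval_add, Polynomial.eval_mul, Polynomial.eval_X, Polynomial.eval_pow,
    Polynomial.eval_ofNat, Polynomial.eval_one]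
  generalize size l = S at *
  generalize (l.drop k).length = n at *
  have k1 : n * (2 * S + 1) + 1 ≤ S * (2 * S + 1) + 1 := by nlinarith
  have k2 : n * (n * (2 * S + 1) + 4 * S + 4) ≤ S * (S * (2 * S + 1) + 4 * S + 4) := by
    have : n * (2 * S + 1) ≤ S * (2 * S + 1) := Nat.mul_le_mul_right _ hlen
    exact Nat.mul_le_mul hlen (by omega)
  have k3 : 8 * (S * (S * (2 * S + 1) + 4 * S + 4)) + 4 * (S * (2 * S + 1) + 1) + 10 ≤
      100 * (S + 1) ^ 3 := by ring_nf; nlinarith
  omega

/-! ### Decoding -/

/-- A tree as an entry. -/
def toEntry (d : D) : E :=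
  ((toWord (hd (hd d)), toWord (tl (hd d))),
    (toBit (hd (tl d)), (toWord (hd (tl (tl d))), toWord (tl (tl (tl d))))))

theorem toEntry_rep (e : E) : toEntry (Rep.rep e) = e := by
  obtain ⟨⟨a, b⟩, s, u, v⟩ := e
  simp only [toEntry, hd_rep, tl_rep, toWord_rep, toBit_rep]

/-- A tree as a list of entries. -/
def toEntries (d : D) : List E := (spine d).map toEntry

theorem toEntries_rep (l : List E) : toEntries (Rep.rep l) = l := by
  show (spine (listTree l)).map toEntry = l
  rw [spine_listTree, List.map_map]
  have : (toEntry ∘ Rep.rep) = id := funext toEntry_rep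
  rw [this, List.map_id]

theorem PT.toEntries' {m : Bool} {α : Type} [Rep α] {f : α → D} (hf : PT m f) :
    PT m (fun a => toEntries (f a)) := by
  have h : PT m (fun z : α × D => toEntry z.2) := by
    unfold toEntry
    fun_prop
  exact PT.map' (m := m) (f := fun z : α × D => toEntry z.2) hf.spine' h

/-! ### The verifier -/

/-- Is `n` odd? -/
def isOdd (n : ℕ) : Bool := (List.range n).any fun i => decide (n = 2 * i + 1)

theorem isOdd_iff (n : ℕ) : isOdd n = true ↔ Odd n := by
  simp only [isOdd, List.any_eq_true, List.mem_range, decide_eq_true_eq]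
  constructor
  · rintro ⟨i, -, h⟩; exact ⟨i, h⟩
  · rintro ⟨i, h⟩; exact ⟨i, by omega, h⟩

/-- Are these the lists of a weighted digraph, encoded by `w`? -/
def valid (w : List Bool) (vl : List (List Bool)) (al : List E) : Bool :=
  decide (code (vl, al) = w) && (decide (vl.dedup = vl) &&
    (decide ((al.map Prod.fst).dedup = al.map Prod.fst) &&
      al.all fun e => decide (e.1.1 ∈ vl) && (decide (e.1.2 ∈ vl) &&
        (!(decide (e.1.1 = e.1.2)) && ltB [] e.2.2.2))))

/-- Is this the list of the arcs of a negative odd cycle? -/
def good (al cert : List E) : Bool :=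
  (cert.all fun e => decide (e ∈ al)) &&
    (decide ((cert.map fun e => e.1.1).dedup = cert.map fun e => e.1.1) &&
    (decide (2 ≤ cert.length) && (isOdd cert.length &&
    (decide ((cert.map fun e => e.1.2) = (cert.map fun e => e.1.1).drop 1 ++
      (cert.map fun e => e.1.1).take 1) && negSum (cert.map fun e => e.2)))))

/-- The verifier. -/
def check (z : List Bool × List Bool) : Bool :=
  valid z.1 (toWords (hd (decodeD z.1))) (toEntries (tl (decodeD z.1))) &&
    good (toEntries (tl (decodeD z.1))) (toEntries (decodeD z.2))

/-- What the first part of the verifier checks. -/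
structure Valid (vl : List (List Bool)) (al : List E) : Prop where
  vnd : vl.Nodup
  and_ : (al.map Prod.fst).Nodup
  mem1 : ∀ e ∈ al, e.1.1 ∈ vl
  mem2 : ∀ e ∈ al, e.1.2 ∈ vl
  ne : ∀ e ∈ al, e.1.1 ≠ e.1.2
  den : ∀ e ∈ al, numeral e.2.2.2 ≠ 0

theorem ltB_nil_iff (u : List Bool) : ltB [] u = true ↔ numeral u ≠ 0 := by
  rw [ltB_iff]
  show 0 < numeral u ↔ numeral u ≠ 0
  omega

theorem valid_iff {w : List Bool} {vl : List (List Bool)} {al : List E} :
    valid w vl al = true ↔ code (vl, al) = w ∧ Valid vl al := by
  simp only [valid, Bool.and_eq_true, decide_eq_true_eq, List.dedup_eq_self, List.all_eq_true,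
    Bool.not_eq_true', decide_eq_false_iff_not, ltB_nil_iff]
  constructor
  · rintro ⟨h1, h2, h3, h4⟩
    exact ⟨h1, h2, h3, fun e he => (h4 e he).1, fun e he => (h4 e he).2.1,
      fun e he => (h4 e he).2.2.1, fun e he => (h4 e he).2.2.2⟩
  · rintro ⟨h1, h2⟩
    exact ⟨h1, h2.vnd, h2.and_, fun e he => ⟨h2.mem1 e he, h2.mem2 e he, h2.ne e he, h2.den e he⟩⟩

section graph

variable (vl : List (List Bool)) (al : List E)

open Classical in
/-- The weight function given by a list of entries. -/
noncomputable def cOf (a : List Bool × List Bool) : ℚ :=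
  if h : ∃ e ∈ al, e.1 = a then value h.choose.2 else 0

theorem cOf_eq {al : List E} (h : (al.map Prod.fst).Nodup) {e : E} (he : e ∈ al) :
    cOf al e.1 = value e.2 := by
  have h' : ∃ e' ∈ al, e'.1 = e.1 := ⟨e, he, rfl⟩
  rw [cOf, dif_pos h']
  obtain ⟨h1, h2⟩ := h'.choose_spec
  rw [List.inj_on_of_nodup_map h h1 he h2]

/-- The weighted digraph given by valid lists. -/
noncomputable def gOf (h : Valid vl al) : WDigraph where
  V := vl.toFinset
  A := (al.map Prod.fst).toFinset
  c := cOf al
  mem_V := by
    intro a ha
    rw [List.mem_toFinset, List.mem_map] at ha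
    obtain ⟨e, he, rfl⟩ := ha
    simp only [List.mem_toFinset]
    exact ⟨h.mem1 e he, h.mem2 e he⟩
  loopless := by
    intro a ha
    rw [List.mem_toFinset, List.mem_map] at ha
    obtain ⟨e, he, rfl⟩ := ha
    exact h.ne e he

theorem encodes_gOf (h : Valid vl al) : Encodes (code (vl, al)) (gOf vl al h) := by
  refine ⟨_, _, rfl, h.vnd, rfl, h.and_, rfl, ?_⟩
  intro e he
  exact ⟨h.den e he, cOf_eq h.and_ he⟩

end graph

theorem valid_of_encodes {w : List Bool} {G : WDigraph} (h : Encodes w G) :
    ∃ vl al, w = code (vl, al) ∧ Valid vl al ∧ (al.map Prod.fst).toFinset = G.A ∧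
      ∀ e ∈ al, G.c e.1 = value e.2 := by
  obtain ⟨vl, al, hw, h1, h2, h3, h4, h5⟩ := h
  have hm : ∀ e ∈ al, e.1 ∈ G.A := by
    intro e he
    rw [← h4, List.mem_toFinset]
    exact List.mem_map_of_mem he
  refine ⟨vl, al, hw, ⟨h1, h3, ?_, ?_, ?_, fun e he => (h5 e he).1⟩, h4, fun e he => (h5 e he).2⟩
  · intro e he
    have := (G.mem_V _ (hm e he)).1
    rwa [← h2, List.mem_toFinset] at this
  · intro e he
    have := (G.mem_V _ (hm e he)).2
    rwa [← h2, List.mem_toFinset] at this
  · intro e he
    exact G.loopless _ (hm e he)

/-- The list of the entries of the arcs of a negative odd cycle. -/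
structure Good (al cert : List E) : Prop where
  sub : ∀ e ∈ cert, e ∈ al
  nd : (cert.map fun e => e.1.1).Nodup
  two : 2 ≤ cert.length
  odd : Odd cert.length
  nxt : (cert.map fun e => e.1.2) = (cert.map fun e => e.1.1).rotate 1
  neg : ((cert.map fun e => e.2).map value).sum < 0

theorem rotate_one (l : List (List Bool)) : l.rotate 1 = l.drop 1 ++ l.take 1 := by
  cases l with
  | nil => rfl
  | cons a l => simp

theorem good_iff {al cert : List E} (hal : ∀ e ∈ al, numeral e.2.2.2 ≠ 0) :
    good al cert = true ↔ Good al cert := by
  simp only [good, Bool.and_eq_true, decide_eq_true_eq, List.dedup_eq_self, List.all_eq_true,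
    isOdd_iff, ← rotate_one]
  constructor
  · rintro ⟨h1, h2, h3, h4, h5, h6⟩
    refine ⟨h1, h2, h3, h4, h5, ?_⟩
    rwa [negSum_iff] at h6
    intro w hw
    obtain ⟨e, he, rfl⟩ := List.mem_map.1 hw
    exact hal e (h1 e he)
  · rintro ⟨h1, h2, h3, h4, h5, h6⟩
    refine ⟨h1, h2, h3, h4, h5, ?_⟩
    rwa [negSum_iff]
    intro w hw
    obtain ⟨e, he, rfl⟩ := List.mem_map.1 hw
    exact hal e (h1 e he)

/-- A negative odd cycle exists iff a good list exists. -/
theorem not_enc_iff_good {G : WDigraph} {al : List E}
    (hA : (al.map Prod.fst).toFinset = G.A) (hc : ∀ e ∈ al, G.c e.1 = value e.2) :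
    ¬ G.EvenNearlyConservative ↔ ∃ cert, Good al cert := by
  have hcw : ∀ cert : List E, (∀ e ∈ cert, e ∈ al) →
      ((cert.map Prod.fst).map G.c).sum = ((cert.map fun e => e.2).map value).sum := by
    intro cert hcert
    rw [List.map_map, List.map_map]
    congr 1
    refine List.map_congr_left fun e he => ?_
    exact hc e (hcert e he)
  constructor
  · intro h
    simp only [WDigraph.EvenNearlyConservative, not_forall] at h
    obtain ⟨l, ⟨h2, hnd, ha⟩, hneg, hodd⟩ := h
    rw [Nat.not_even_iff_odd] at hodd
    obtain ⟨cert, hcert, hsub⟩ : ∃ cert : List E, cert.map Prod.fst = arcsOf l ∧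
        ∀ e ∈ cert, e ∈ al := by
      generalize arcsOf l = l' at ha
      induction l' with
      | nil => exact ⟨[], rfl, by simp⟩
      | cons a l' ih =>
        obtain ⟨cert, h1, h2⟩ := ih (fun b hb => ha b (List.mem_cons_of_mem _ hb))
        have h3 := ha a List.mem_cons_self
        rw [← hA, List.mem_toFinset, List.mem_map] at h3
        obtain ⟨e, he, rfl⟩ := h3
        refine ⟨e :: cert, by rw [List.map_cons, h1], ?_⟩
        intro e' he'
        rcases List.mem_cons.1 he' with rfl | he'
        · exact he
        · exact h2 e' he'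
    have hlen : cert.length = l.length := by
      have := congrArg List.length hcert
      simpa [arcsOf] using this
    have e1 : (cert.map fun e => e.1.1) = l := by
      have : (cert.map fun e => e.1.1) = (cert.map Prod.fst).map Prod.fst := by
        rw [List.map_map]; rfl
      rw [this, hcert, arcsOf, List.map_fst_zip (by simp)]
    have e2 : (cert.map fun e => e.1.2) = l.rotate 1 := by
      have : (cert.map fun e => e.1.2) = (cert.map Prod.fst).map Prod.snd := by
        rw [List.map_map]; rfl
      rw [this, hcert, arcsOf, List.map_snd_zip (by simp)]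
    refine ⟨cert, hsub, by rw [e1]; exact hnd, by omega, by rw [hlen]; exact hodd,
      by rw [e1, e2], ?_⟩
    rw [← hcw cert hsub, hcert]
    exact hneg
  · rintro ⟨cert, h⟩ hE
    have hz : arcsOf (cert.map fun e => e.1.1) = cert.map Prod.fst := by
      rw [arcsOf, ← h.nxt, List.zip_map']
    have := hE (cert.map fun e => e.1.1) ⟨by simpa using h.two, h.nd, ?_⟩ ?_
    · rw [List.length_map] at this
      exact absurd this (Nat.not_even_iff_odd.2 h.odd)
    · intro a ha
      rw [hz, List.mem_map] at ha
      obtain ⟨e, he, rfl⟩ := ha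
      rw [← hA, List.mem_toFinset]
      exact List.mem_map_of_mem (h.sub e he)
    · rw [WDigraph.weight, hz, hcw cert h.sub]
      exact h.neg

theorem PT.check' : PT true check := by
  have hv : PT true (fun z : List Bool × List (List Bool) × List E => valid z.1 z.2.1 z.2.2) := by
    unfold valid
    have a1 : PT true (fun z : List Bool × List (List Bool) × List E => z.2.1.dedup) :=
      PT.dedup' (by fun_prop)
    have a2 : PT true (fun z : List Bool × List (List Bool) × List E =>
        z.2.2.map Prod.fst) :=
      PT.map' (m := true) (l := fun z : List Bool × List (List Bool) × List E => z.2.2)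
        (f := fun y : (List Bool × List (List Bool) × List E) × E => y.2.1) (by fun_prop)
        (by fun_prop)
    have a3 : PT true (fun z : List Bool × List (List Bool) × List E =>
        (z.2.2.map Prod.fst).dedup) := PT.dedup' a2
    have a4 : PT true (fun y : (List Bool × List (List Bool) × List E) × E =>
        decide (y.2.1.1 ∈ y.1.2.1)) := by
      have := Cook.PT.mem' (m := true) (l := fun y : (List Bool × List (List Bool) × List E) × E => y.1.2.1)
        (f := fun y : (List Bool × List (List Bool) × List E) × E => y.2.1.1)
        (by fun_prop) (by fun_prop)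
      exact PT.of_eq this (fun y => decide_eq_decide.2 Iff.rfl)
    have a5 : PT true (fun y : (List Bool × List (List Bool) × List E) × E =>
        decide (y.2.1.2 ∈ y.1.2.1)) := by
      have := Cook.PT.mem' (m := true) (l := fun y : (List Bool × List (List Bool) × List E) × E => y.1.2.1)
        (f := fun y : (List Bool × List (List Bool) × List E) × E => y.2.1.2)
        (by fun_prop) (by fun_prop)
      exact PT.of_eq this (fun y => decide_eq_decide.2 Iff.rfl)
    have a6 : PT true (fun z : List Bool × List (List Bool) × List E =>
        z.2.2.all fun e => decide (e.1.1 ∈ z.2.1) && (decide (e.1.2 ∈ z.2.1) &&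
          (!(decide (e.1.1 = e.1.2)) && ltB [] e.2.2.2))) :=
      Cook.PT.all' (m := true) (l := fun z : List Bool × List (List Bool) × List E => z.2.2)
        (f := fun y : (List Bool × List (List Bool) × List E) × E =>
          decide (y.2.1.1 ∈ y.1.2.1) && (decide (y.2.1.2 ∈ y.1.2.1) &&
          (!(decide (y.2.1.1 = y.2.1.2)) && ltB [] y.2.2.2.2))) (by fun_prop) (by fun_prop)
    fun_prop
  have hg : PT true (fun z : List E × List E => good z.1 z.2) := by
    unfold good
    have a0 : PT true (fun y : (List E × List E) × E => decide (y.2 ∈ y.1.1)) := by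
      have := Cook.PT.mem' (m := true) (l := fun y : (List E × List E) × E => y.1.1)
          (f := fun y : (List E × List E) × E => y.2) (by fun_prop) (by fun_prop)
      exact PT.of_eq this (fun y => decide_eq_decide.2 Iff.rfl)
    have a1 : PT true (fun z : List E × List E => z.2.all fun e => decide (e ∈ z.1)) :=
      Cook.PT.all' (m := true) (l := fun z : List E × List E => z.2)
        (f := fun y : (List E × List E) × E => decide (y.2 ∈ y.1.1)) (by fun_prop) a0
    have a2 : PT true (fun z : List E × List E => z.2.map fun e => e.1.1) :=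
      PT.map' (m := true) (l := fun z : List E × List E => z.2)
        (f := fun y : (List E × List E) × E => y.2.1.1) (by fun_prop) (by fun_prop)
    have a3 : PT true (fun z : List E × List E => z.2.map fun e => e.1.2) :=
      PT.map' (m := true) (l := fun z : List E × List E => z.2)
        (f := fun y : (List E × List E) × E => y.2.1.2) (by fun_prop) (by fun_prop)
    have a4 : PT true (fun z : List E × List E => z.2.map fun e => e.2) :=
      PT.map' (m := true) (l := fun z : List E × List E => z.2)
        (f := fun y : (List E × List E) × E => y.2.2) (by fun_prop) (by fun_prop)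
    have a5 : PT true (fun z : List E × List E => (z.2.map fun e => e.1.1).dedup) :=
      PT.dedup' a2
    have a6 : PT true (fun z : List E × List E => isOdd z.2.length) := by
      unfold isOdd
      exact Cook.PT.any' (m := true) (l := fun z : List E × List E => List.range z.2.length)
        (f := fun y : (List E × List E) × ℕ => decide (y.1.2.length = 2 * y.2 + 1))
        (by fun_prop) (by fun_prop)
    have a7 : PT true (fun z : List E × List E => acc (z.2.map fun e => e.2)) :=
      PT.acc'.comp' a4
    have a8 : PT true (fun z : List E × List E => negSum (z.2.map fun e => e.2)) := by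
      unfold negSum
      fun_prop
    have a9 : PT true (fun z : List E × List E => decide (2 ≤ z.2.length)) :=
      PT.decideLe (by fun_prop) (by fun_prop)
    fun_prop
  unfold check
  have h1 : PT true (fun z : List Bool × List Bool => toWords (hd (decodeD z.1))) := by fun_prop
  have h2 : PT true (fun z : List Bool × List Bool => toEntries (tl (decodeD z.1))) :=
    PT.toEntries' (by fun_prop)
  have h3 : PT true (fun z : List Bool × List Bool => toEntries (decodeD z.2)) :=
    PT.toEntries' (by fun_prop)
  have h4 := hv.comp' (f := fun z : List Bool × List Bool =>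
    (z.1, toWords (hd (decodeD z.1)), toEntries (tl (decodeD z.1)))) (by fun_prop)
  have h5 := hg.comp' (f := fun z : List Bool × List Bool =>
    (toEntries (tl (decodeD z.1)), toEntries (decodeD z.2))) (by fun_prop)
  exact PT.and' h4 h5

/-- **Membership**: the weighted digraphs that are not even-nearly conservative are recognised
in `NP`. -/
theorem inNP : {w | ∃ G : WDigraph, Encodes w G ∧ ¬ G.EvenNearlyConservative} ∈ NP := by
  refine mem_NP_of (c := check) PT.check' (Polynomial.X * (Polynomial.X + 1) + 2) ?_ ?_
  · rintro w ⟨G, hG, hE⟩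
    obtain ⟨vl, al, rfl, hv, hA, hc⟩ := valid_of_encodes hG
    obtain ⟨cert, hcert⟩ := (not_enc_iff_good hA hc).1 hE
    refine ⟨code cert, ?_, ?_⟩
    · have h1 : cert.length ≤ al.length := by
        have : cert.Nodup := List.Nodup.of_map _ hcert.nd
        exact (List.subperm_of_subset this hcert.sub).length_le
      have h2 : ∀ e ∈ cert, size e ≤ size al := fun e he => size_le_of_mem (hcert.sub e he)
      have h3 := size_list_le h2
      have h4 := length_le_size' al
      have h5 : size al ≤ (code (vl, al)).length := by
        show size al ≤ size (vl, al)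
        rw [size_pair]; omega
      have h6 : (code cert).length = size cert := rfl
      simp only [Polynomial.eval_add, Polynomial.eval_mul, Polynomial.eval_X,
        Polynomial.eval_ofNat, Polynomial.eval_one]
      generalize (code (vl, al)).length = N at h5
      have h7 : cert.length * (size al + 1) ≤ N * (N + 1) := Nat.mul_le_mul (by omega) (by omega)
      omega
    · simp only [check, decodeD_codeT, hd_rep, tl_rep, toWords_rep, toEntries_rep,
        Bool.and_eq_true]
      exact ⟨valid_iff.2 ⟨rfl, hv⟩, (good_iff hv.den).2 hcert⟩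
  · rintro w y h
    simp only [check, Bool.and_eq_true] at h
    obtain ⟨h1, h2⟩ := h
    rw [valid_iff] at h1
    obtain ⟨hw, hv⟩ := h1
    rw [good_iff hv.den] at h2
    refine ⟨gOf _ _ hv, ?_, ?_⟩
    · conv_lhs => rw [← hw]
      exact encodes_gOf _ _ hv
    · exact (not_enc_iff_good (G := gOf _ _ hv) rfl (fun e he => cOf_eq hv.and_ he)).2 ⟨_, h2⟩

/-- The property depends only on the encoding. -/
theorem enc_unique {w : List Bool} {G G' : WDigraph} (h : Encodes w G) (h' : Encodes w G') :
    G.EvenNearlyConservative ↔ G'.EvenNearlyConservative := by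
  obtain ⟨vl, al, hw, hv, hA, hc⟩ := valid_of_encodes h
  obtain ⟨vl', al', hw', hv', hA', hc'⟩ := valid_of_encodes h'
  have he := code_injective (hw.symm.trans hw')
  simp only [Prod.mk.injEq] at he
  obtain ⟨rfl, rfl⟩ := he
  have h1 := not_enc_iff_good hA hc
  have h2 := not_enc_iff_good hA' hc'
  tauto

end Pool.Agent.H64.ENC
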