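import Pool.Agent.H64.ENC.Build

/-!
# The reduction of satisfiability to the recognition of weights that are not even-nearly
conservative
-/

namespace Pool.Agent.H64.ENC

open Pool.Agent.PPS Pool.Agent.H64.Cook

/-! ### Closed walks -/

section walks

variable {α β : Type}

theorem arcsOf_map (f : α → β) (l : List α) :
    arcsOf (l.map f) = (arcsOf l).map (Prod.map f f) := by
  rw [arcsOf, ← List.map_rotate, List.zip_map, arcsOf]

theorem mem_of_arcsOf {l : List α} {z : α × α} (h : z ∈ arcsOf l) : z.1 ∈ l ∧ z.2 ∈ l := by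
  have := List.of_mem_zip (l₁ := l) (l₂ := l.rotate 1) (a := z.1) (b := z.2) h
  rw [List.mem_rotate] at this
  exact this

theorem exists_of_mem {l : List α} {x : α} (h : x ∈ l) : ∃ y, (x, y) ∈ arcsOf l := by
  obtain ⟨i, hi, rfl⟩ := List.mem_iff_getElem.1 h
  have hi' : i < (arcsOf l).length := by simpa [arcsOf] using hi
  refine ⟨((arcsOf l)[i]).2, ?_⟩
  have := List.getElem_mem hi'
  convert this using 1
  simp [arcsOf]

/-- A closed walk all of whose arcs change the value of `g` has even length. -/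
theorem even_of_flip {g : α → Bool} {l : List α} (h : ∀ z ∈ arcsOf l, g z.1 = !g z.2) :
    Even l.length := by
  cases l with
  | nil => simp
  | cons a l =>
    rw [arcsOf_cons, forall_mem_zip (R := fun u v => g u = !g v)] at h
    have h1 := parity_chain l a h.1
    rw [List.length_cons, Nat.even_add_one, ← h1, h.2]
    cases g a <;> simp

end walks

/-! ### The digraph -/

section graph

variable (n m : ℕ) (ol : List (ℕ × Bool × ℕ))

open Classical in
/-- The weight of an arc of the gadget. -/
noncomputable def wf (z : F × F) : ℤ :=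
  if h : ∃ w, HA n m ol.length (occOf ol) z.1 z.2 w then h.choose else 0

theorem wf_eq {u v : F} {w : ℤ} (h : HA n m ol.length (occOf ol) u v w) :
    wf n m ol (u, v) = w := by
  have h' : ∃ w, HA n m ol.length (occOf ol) (u, v).1 (u, v).2 w := ⟨w, h⟩
  rw [wf, dif_pos h']
  exact h'.choose_spec.fn h

open Classical in
/-- The weight function on pairs of words. -/
noncomputable def cf (a : List Bool × List Bool) : ℚ :=
  if h : ∃ z : F × F, (code z.1, code z.2) = a then (wf n m ol h.choose : ℚ) else 0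

theorem cf_eq (u v : F) : cf n m ol (code u, code v) = (wf n m ol (u, v) : ℚ) := by
  have h' : ∃ z : F × F, (code z.1, code z.2) = (code u, code v) := ⟨(u, v), rfl⟩
  rw [cf, dif_pos h']
  have h := Prod.ext_iff.1 h'.choose_spec
  have e1 : h'.choose.1 = u := code_injective h.1
  have e2 : h'.choose.2 = v := code_injective h.2
  have : h'.choose = (u, v) := Prod.ext e1 e2
  rw [this]

/-- The gadget as a weighted digraph. -/
noncomputable def gr : WDigraph where
  V := (vl n m ol).toFinset
  A := ((al n m ol).map Prod.fst).toFinset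
  c := cf n m ol
  mem_V := by
    intro a ha
    rw [List.mem_toFinset, List.mem_map] at ha
    obtain ⟨z, hz, rfl⟩ := ha
    obtain ⟨u, v, w, h, rfl⟩ := mem_al.1 hz
    obtain ⟨w', h'⟩ := h.symm
    simp only [List.mem_toFinset, vl, List.mem_dedup, List.mem_map]
    exact ⟨⟨_, mem_al.2 ⟨u, v, w, h, rfl⟩, rfl⟩, ⟨_, mem_al.2 ⟨v, u, w', h', rfl⟩, rfl⟩⟩
  loopless := by
    intro a ha
    rw [List.mem_toFinset, List.mem_map] at ha
    obtain ⟨z, hz, rfl⟩ := ha
    obtain ⟨u, v, w, h, rfl⟩ := mem_al.1 hz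
    exact fun h' => h.ne (code_injective h')

variable {n m ol}

theorem mem_A {a : List Bool × List Bool} :
    a ∈ (gr n m ol).A ↔ ∃ u v w, HA n m ol.length (occOf ol) u v w ∧ a = (code u, code v) := by
  simp only [gr, List.mem_toFinset, List.mem_map]
  constructor
  · rintro ⟨z, hz, rfl⟩
    obtain ⟨u, v, w, h, rfl⟩ := mem_al.1 hz
    exact ⟨u, v, w, h, rfl⟩
  · rintro ⟨u, v, w, h, rfl⟩
    exact ⟨_, mem_al.2 ⟨u, v, w, h, rfl⟩, rfl⟩

theorem encodes_gr : Encodes (code (vl n m ol, al n m ol)) (gr n m ol) := by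
  refine ⟨_, _, rfl, List.nodup_dedup _, rfl, nodup_keys _ _ _, rfl, ?_⟩
  intro e he
  obtain ⟨u, v, w, h, rfl⟩ := mem_al.1 he
  refine ⟨numeral_encW _, ?_⟩
  simp only [gr]
  rw [cf_eq, wf_eq _ _ _ h, value_encW h.weights]

/-- Every cycle of the gadget comes from a cycle on `F`. -/
theorem lift_cycle {l : List (List Bool)} (h : (gr n m ol).IsCycle l) :
    ∃ l' : List F, l = l'.map code ∧ 2 ≤ l'.length ∧ l'.Nodup ∧
      ∀ z ∈ arcsOf l', ∃ w, HA n m ol.length (occOf ol) z.1 z.2 w := by
  obtain ⟨h2, hnd, ha⟩ := h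
  have hx : ∀ x ∈ l, ∃ u : F, code u = x := by
    intro x hx
    obtain ⟨y, hy⟩ := exists_of_mem hx
    obtain ⟨u, v, w, -, h⟩ := mem_A.1 (ha _ hy)
    simp only [Prod.mk.injEq] at h
    exact ⟨u, h.1.symm⟩
  obtain ⟨l', rfl⟩ : ∃ l' : List F, l = l'.map code := by
    clear h2 hnd ha
    induction l with
    | nil => exact ⟨[], rfl⟩
    | cons x l ih =>
      obtain ⟨l', hl'⟩ := ih (fun y hy => hx y (List.mem_cons_of_mem _ hy))
      obtain ⟨u, hu⟩ := hx x List.mem_cons_self
      exact ⟨u :: l', by rw [List.map_cons, ← hl', hu]⟩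
  refine ⟨l', rfl, by simpa using h2, List.Nodup.of_map _ hnd, ?_⟩
  intro z hz
  rw [arcsOf_map] at ha
  have := ha (Prod.map code code z) (List.mem_map_of_mem hz)
  obtain ⟨u, v, w, h, he⟩ := mem_A.1 this
  simp only [Prod.map, Prod.mk.injEq] at he
  rw [code_injective he.1, code_injective he.2]
  exact ⟨w, h⟩

theorem weight_map (l : List F) :
    (gr n m ol).weight (l.map code) = (((arcsOf l).map (wf n m ol)).sum : ℤ) := by
  rw [WDigraph.weight, arcsOf_map, List.map_map]
  generalize arcsOf l = l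
  induction l with
  | nil => simp
  | cons z l ih =>
    rw [List.map_cons, List.sum_cons, ih, List.map_cons, List.sum_cons]
    push_cast
    congr 1
    exact cf_eq n m ol z.1 z.2

theorem restricted_gr : (gr n m ol).Restricted := by
  refine ⟨?_, ?_, code ((.x 0, none) : F), code ((.c m, none) : F), ?_⟩
  · intro a ha
    obtain ⟨u, v, w, h, rfl⟩ := mem_A.1 ha
    obtain ⟨w', h'⟩ := h.symm
    exact mem_A.2 ⟨v, u, w', h', rfl⟩
  · intro a ha
    obtain ⟨u, v, w, h, rfl⟩ := mem_A.1 ha
    have := h.weights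
    simp only [gr]
    rw [cf_eq, wf_eq _ _ _ h]
    norm_cast
  · intro l hl hodd
    obtain ⟨l', rfl, h2, hnd, ha⟩ := lift_cycle hl
    by_contra hcon
    rw [not_or] at hcon
    rw [List.length_map] at hodd
    refine absurd (even_of_flip (g := fun u : F => u.2.isSome) (l := l') ?_)
      (Nat.not_even_iff_odd.2 hodd)
    intro z hz
    obtain ⟨w, hw⟩ := ha z hz
    have hm : ∀ u v : F, z = (u, v) → (code u, code v) ∈ arcsOf (l'.map code) := by
      rintro u v rfl
      rw [arcsOf_map]
      exact List.mem_map_of_mem (f := Prod.map code code) hz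
    rcases hw.kind with h | ⟨h, h', -⟩ | ⟨h, h', -⟩
    · exact h
    · exact absurd (hm _ _ (Prod.ext h h')) hcon.2
    · exact absurd (hm _ _ (Prod.ext h h')) hcon.1

theorem not_enc_iff (hn : ∀ k < ol.length, (occOf ol k).2.2 < n) :
    ¬ (gr n m ol).EvenNearlyConservative ↔
      ∃ σ : ℕ → Bool, ∀ j < m, ∃ k < ol.length, (occOf ol k).1 = j ∧
        σ (occOf ol k).2.2 = (occOf ol k).2.1 := by
  constructor
  · intro h
    simp only [WDigraph.EvenNearlyConservative, not_forall] at h
    obtain ⟨l, hl, hneg, hodd⟩ := h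
    rw [Nat.not_even_iff_odd] at hodd
    obtain ⟨l', rfl, h2, hnd, ha⟩ := lift_cycle hl
    rw [List.length_map] at hodd
    rw [weight_map] at hneg
    refine sound_list (wf := wf n m ol) h2 hnd hodd ?_ (by exact_mod_cast hneg) hn
    intro z hz
    obtain ⟨w, hw⟩ := ha z hz
    rw [show wf n m ol z = w from wf_eq n m ol hw]
    exact hw
  · rintro ⟨σ, hσ⟩ hE
    obtain ⟨l, h2, hnd, hodd, ha, hw⟩ := complete (wf := wf n m ol)
      (fun u v w h => wf_eq n m ol h) hσ
    have := hE (l.map code) ⟨by simpa using h2, hnd.map code_injective, ?_⟩ ?_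
    · rw [List.length_map] at this
      exact absurd this (Nat.not_even_iff_odd.2 hodd)
    · intro z hz
      rw [arcsOf_map, List.mem_map] at hz
      obtain ⟨y, hy, rfl⟩ := hz
      obtain ⟨w, hw⟩ := ha y hy
      exact mem_A.2 ⟨_, _, w, hw, rfl⟩
    · rw [weight_map, hw]
      norm_num

end graph

/-! ### From clauses to occurrences -/

section cnf

variable {V : Type} [DecidableEq V]

/-- The variables of `φ`, with repetitions. -/
def vars (φ : List (List (Bool × V))) : List V := φ.flatten.map Prod.snd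

/-- The number of the variable `v` in the list `vs`. -/
def ix (vs : List V) (v : V) : ℕ :=
  ((List.range vs.length).filter fun i => decide (vs[i]? = some v)).headD 0

theorem ix_spec {vs : List V} {v : V} (h : v ∈ vs) :
    ix vs v < vs.length ∧ vs[ix vs v]? = some v := by
  have hne : ((List.range vs.length).filter fun i => decide (vs[i]? = some v)) ≠ [] := by
    obtain ⟨i, hi, rfl⟩ := List.mem_iff_getElem.1 h
    intro h0
    rw [List.filter_eq_nil_iff] at h0
    exact h0 i (by simpa using hi) (by simp)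
  have : ix vs v ∈ (List.range vs.length).filter fun i => decide (vs[i]? = some v) := by
    unfold ix
    generalize (List.range vs.length).filter (fun i => decide (vs[i]? = some v)) = l at hne
    cases l with
    | nil => exact absurd rfl hne
    | cons a l => simp
  rw [List.mem_filter, List.mem_range, decide_eq_true_iff] at this
  exact this

/-- The occurrences of literals in `φ`. -/
def occs (φ : List (List (Bool × V))) : List (ℕ × Bool × ℕ) :=
  (List.range φ.length).flatMap fun j =>
    (φ.getD j []).map fun l => (j, l.1, ix (vars φ) l.2)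

theorem mem_occs {φ : List (List (Bool × V))} {o : ℕ × Bool × ℕ} :
    o ∈ occs φ ↔ ∃ j < φ.length, ∃ l ∈ φ.getD j [], o = (j, l.1, ix (vars φ) l.2) := by
  simp only [occs, List.mem_flatMap, List.mem_range, List.mem_map, eq_comm]

omit [DecidableEq V] in
theorem mem_vars {φ : List (List (Bool × V))} {j : ℕ} (hj : j < φ.length) {l : Bool × V}
    (hl : l ∈ φ.getD j []) : l.2 ∈ vars φ := by
  rw [List.getD_eq_getElem _ _ hj] at hl
  exact List.mem_map_of_mem (List.mem_flatten.2 ⟨_, List.getElem_mem hj, hl⟩)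

theorem occs_lt (φ : List (List (Bool × V))) :
    ∀ k < (occs φ).length, (occOf (occs φ) k).2.2 < (vars φ).length := by
  intro k hk
  have : occOf (occs φ) k ∈ occs φ := by
    rw [occOf, List.getD_eq_getElem _ _ hk]; exact List.getElem_mem hk
  obtain ⟨j, hj, l, hl, he⟩ := mem_occs.1 this
  rw [he]
  exact (ix_spec (mem_vars hj hl)).1

theorem sat_iff_occs (φ : List (List (Bool × V))) :
    Sat φ ↔ ∃ σ : ℕ → Bool, ∀ j < φ.length, ∃ k < (occs φ).length,
      (occOf (occs φ) k).1 = j ∧ σ (occOf (occs φ) k).2.2 = (occOf (occs φ) k).2.1 := by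
  have key : ∀ (Q : ℕ × Bool × ℕ → Prop), (∃ k < (occs φ).length, Q (occOf (occs φ) k)) ↔
      ∃ o ∈ occs φ, Q o := by
    intro Q
    constructor
    · rintro ⟨k, hk, h⟩
      refine ⟨_, ?_, h⟩
      rw [occOf, List.getD_eq_getElem _ _ hk]; exact List.getElem_mem hk
    · rintro ⟨o, ho, h⟩
      obtain ⟨k, hk, rfl⟩ := List.mem_iff_getElem.1 ho
      refine ⟨k, hk, ?_⟩
      rw [occOf, List.getD_eq_getElem _ _ hk]; exact h
  constructor
  · rintro ⟨σ, hσ⟩
    refine ⟨fun i => ((vars φ)[i]?).elim false σ, fun j hj => ?_⟩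
    rw [key (fun o => o.1 = j ∧ ((vars φ)[o.2.2]?).elim false σ = o.2.1)]
    obtain ⟨l, hl, hs⟩ := hσ φ[j] (List.getElem_mem hj)
    have hl' : l ∈ φ.getD j [] := by rw [List.getD_eq_getElem _ _ hj]; exact hl
    refine ⟨_, mem_occs.2 ⟨j, hj, l, hl', rfl⟩, rfl, ?_⟩
    simp only
    rw [(ix_spec (mem_vars hj hl')).2]
    exact hs
  · rintro ⟨σ, hσ⟩
    refine ⟨fun v => σ (ix (vars φ) v), fun C hC => ?_⟩
    obtain ⟨j, hj, rfl⟩ := List.mem_iff_getElem.1 hC
    obtain ⟨o, ho, ho1, ho2⟩ := (key (fun o => o.1 = j ∧ σ o.2.2 = o.2.1)).1 (hσ j hj)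
    obtain ⟨j', hj', l, hl, rfl⟩ := mem_occs.1 ho
    simp only at ho1 ho2
    subst ho1
    rw [List.getD_eq_getElem _ _ hj'] at hl
    exact ⟨l, hl, ho2⟩

variable {m : Bool} {α : Type} [Rep α] [Rep V]

omit [DecidableEq V] in
theorem PT.vars' {φ : α → List (List (Bool × V))} (hφ : PT m φ) : PT m (fun a => vars (φ a)) := by
  unfold vars
  exact PT.map' (m := m) (l := fun a => (φ a).flatten) (f := fun z : α × (Bool × V) => z.2.2)
    (by fun_prop) (by fun_prop)

omit [DecidableEq V] in
theorem PT.getElem?' {l : α → List V} {i : α → ℕ} (hl : PT m l) (hi : PT m i) :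
    PT m (fun a => (l a)[i a]?) := by
  have h : PT m (fun a => ((l a).drop (i a)).head?) := by fun_prop
  convert h using 2 with a
  rw [List.head?_drop]

theorem PT.ix' {vs : α → List V} {v : α → V} (hvs : PT m vs) (hv : PT m v) :
    PT m (fun a => ix (vs a) (v a)) := by
  unfold ix
  have h1 : PT m (fun z : α × ℕ => (vs z.1)[z.2]?) := PT.getElem?' (by fun_prop) (by fun_prop)
  have h := Cook.PT.filter' (m := m) (l := fun a => List.range (vs a).length)
    (f := fun z : α × ℕ => decide ((vs z.1)[z.2]? = some (v z.1))) (by fun_prop) (by fun_prop)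
  fun_prop

theorem PT.occs' {φ : α → List (List (Bool × V))} (hφ : PT m φ) : PT m (fun a => occs (φ a)) := by
  unfold occs
  refine Cook.PT.flatMap' (m := m) (l := fun a => List.range (φ a).length)
    (f := fun z : α × ℕ => ((φ z.1).getD z.2 []).map fun l => (z.2, l.1, ix (vars (φ z.1)) l.2))
    (by fun_prop) ?_
  refine PT.map' (m := m) (l := fun z : α × ℕ => (φ z.1).getD z.2 [])
    (f := fun z : (α × ℕ) × (Bool × V) => (z.1.2, z.2.1, ix (vars (φ z.1.1)) z.2.2))
    (by fun_prop) ?_
  have h1 : PT m (fun z : (α × ℕ) × (Bool × V) => ix (vars (φ z.1.1)) z.2.2) :=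
    PT.ix' (PT.vars' (by fun_prop)) (by fun_prop)
  fun_prop

end cnf

/-- **Hardness**: every language in `NP` reduces in polynomial time to the recognition of
restricted weighted digraphs that are not even-nearly conservative. -/
theorem hard {L : Set (List Bool)} (hL : L ∈ NP) :
    ∃ f ∈ FP, ∀ x, ∃ G : WDigraph, Encodes (f x) G ∧ G.Restricted ∧
      (x ∈ L ↔ ¬ G.EvenNearlyConservative) := by
  obtain ⟨φ, hφ, h⟩ := cookLevin hL
  refine ⟨fun x => code (vl (vars (φ x)).length (φ x).length (occs (φ x)),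
    al (vars (φ x)).length (φ x).length (occs (φ x))), ?_, ?_⟩
  · rw [mem_FP_iff]
    have h1 : PT true (fun x => vars (φ x)) := PT.vars' hφ
    have h2 : PT true (fun x => occs (φ x)) := PT.occs' hφ
    have h3 : PT true (fun x => vl (vars (φ x)).length (φ x).length (occs (φ x))) :=
      PT.vl' h2 (by fun_prop) (by fun_prop)
    have h4 : PT true (fun x => al (vars (φ x)).length (φ x).length (occs (φ x))) :=
      PT.al' h2 (by fun_prop) (by fun_prop)
    fun_prop
  · intro x
    refine ⟨gr _ _ _, encodes_gr, restricted_gr, ?_⟩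
    rw [h x, not_enc_iff (occs_lt (φ x)), sat_iff_occs]

end Pool.Agent.H64.ENC
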