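import Pool.Agent.H64.ENC.Gadget

/-!
# A negative odd cycle of the gadget gives a satisfying assignment
-/

namespace Pool.Agent.H64.ENC

variable {n m K : ℕ} {occ : ℕ → ℕ × Bool × ℕ} {L : ℕ} [NeZero L] {v : ZMod L → F}
  {wt : ZMod L → ℤ}

theorem two_ne (hodd : Odd L) (h2 : 2 ≤ L) : (2 : ZMod L) ≠ 0 := by
  intro h
  have h' : ((2 : ℕ) : ZMod L) = 0 := by exact_mod_cast h
  rw [ZMod.natCast_eq_zero_iff] at h'
  have := Nat.le_of_dvd (by norm_num) h'
  have : L = 2 := by omega
  subst this
  exact absurd hodd (by decide)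

theorem four_ne (hodd : Odd L) (h2 : 2 ≤ L) : (4 : ZMod L) ≠ 0 := by
  intro h
  have h' : ((4 : ℕ) : ZMod L) = 0 := by exact_mod_cast h
  rw [ZMod.natCast_eq_zero_iff] at h'
  have := Nat.le_of_dvd (by norm_num) h'
  interval_cases L
  · exact absurd hodd (by decide)
  · omega
  · exact absurd hodd (by decide)

section local_analysis

variable (hv : Function.Injective v) (ha : ∀ i, HA n m K occ (v i) (v (i + 1)) (wt i))
  (hodd : Odd L) (h2 : 2 ≤ L)

include hv ha hodd h2

theorem local_pq (i : ZMod L) (hi : isPQ (v i) = true) :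
    0 ≤ wt (i - 1) + wt i ∧ (wt (i - 1) + wt i = 0 →
      (wt (i - 1) = -1 ∧ wt i = 1) ∨ (wt (i - 1) = 1 ∧ wt i = -1)) := by
  have a1 := ha (i - 1)
  rw [sub_add_cancel] at a1
  have a2 := ha i
  rcases a1.in_pq hi with c1 | ⟨c1, d1, e1⟩
  · rcases a2.out_pq hi with c2 | ⟨c2, d2, e2⟩
    · omega
    · omega
  · rcases a2.out_pq hi with c2 | ⟨c2, d2, e2⟩
    · omega
    · exfalso
      have a3 := ha (i + 1)
      rw [d2] at a3
      have a0 := ha (i - 1 - 1)
      rw [sub_add_cancel, d1] at a0
      have hvi : v i = ((v i).1, none) := by rw [← e1]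
      have key : ∀ j, v j = ((v i).1, none) → j ≠ i → False := by
        intro j hj hne
        exact hne (hv (hj.trans hvi.symm))
      have f3 : v (i + 1 + 1) = ((v i).1.other, none) := by
        rcases a3.of_mid with h | h
        · exact h
        · refine absurd ?_ (key _ h)
          intro h'
          apply two_ne hodd h2
          linear_combination h'
      have f0 : v (i - 1 - 1) = ((v i).1.other, none) := by
        rcases a0.to_mid with h | h
        · refine absurd ?_ (key _ h)
          intro h'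
          apply two_ne hodd h2
          linear_combination -h'
        · exact h
      have h' := hv (f3.trans f0.symm)
      apply four_ne hodd h2
      linear_combination h'

theorem key_lemma (hneg : ∑ i, wt i < 0) :
    ∃ i₀, v i₀ = (.c m, none) ∧ v (i₀ + 1) = (.x 0, none) ∧
      (∀ i, isPQ (v i) = true → wt (i - 1) + wt i = 0) ∧
      (∀ i, isPQ (v i) = false → isPQ (v (i + 1)) = false → i ≠ i₀ → wt i = 0) := by
  classical
  let loc : ZMod L → ℤ := fun i => (if isPQ (v i) = true then wt (i - 1) + wt i else 0) +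
    (if isPQ (v i) = false ∧ isPQ (v (i + 1)) = false then wt i else 0)
  let dl : ZMod L → ℤ := fun i => if v i = (.c m, none) ∧ v (i + 1) = (.x 0, none) then 1 else 0
  have hsum : ∑ i, loc i = ∑ i, wt i := by
    have e1 : ∑ i, (if isPQ (v i) = true then wt (i - 1) else 0) =
        ∑ i, (if isPQ (v (i + 1)) = true then wt i else 0) := by
      rw [← Equiv.sum_comp (Equiv.addRight (1 : ZMod L))]
      refine Finset.sum_congr rfl fun i _ => ?_
      simp
    have e2 : ∀ i, loc i = (if isPQ (v i) = true then wt (i - 1) else 0) +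
        ((if isPQ (v i) = true then wt i else 0) +
        (if isPQ (v i) = false ∧ isPQ (v (i + 1)) = false then wt i else 0)) := by
      intro i
      simp only [loc]
      split_ifs <;> ring
    rw [Finset.sum_congr rfl fun i _ => e2 i, Finset.sum_add_distrib, e1,
      ← Finset.sum_add_distrib]
    refine Finset.sum_congr rfl fun i _ => ?_
    have h := (ha i).not_both
    cases h1 : isPQ (v i) <;> cases h2 : isPQ (v (i + 1)) <;> simp_all
  have hloc : ∀ i, 0 ≤ loc i + dl i := by
    intro i
    have h1 := (ha i).neither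
    have h3 := local_pq hv ha hodd h2 i
    simp only [loc, dl]
    cases hi : isPQ (v i)
    · cases hi' : isPQ (v (i + 1))
      · rcases h1 hi hi' with h | ⟨h, h', h''⟩
        · simp only [Bool.false_eq_true, if_false, and_self, if_true]
          split_ifs <;> omega
        · simp [h, h', h'']
      · simp only [Bool.false_eq_true, if_false, Bool.true_eq_false, and_false]
        split_ifs <;> omega
    · have := (h3 hi).1
      simp only [if_true, Bool.true_eq_false, false_and, if_false]
      split_ifs <;> omega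
  have hdl : ∑ i, dl i ≤ 1 := by
    simp only [dl]
    rw [Finset.sum_boole]
    norm_cast
    rw [Finset.card_le_one]
    intro a hx b hy
    simp only [Finset.mem_filter, Finset.mem_univ, true_and] at hx hy
    exact hv (hx.1.trans hy.1.symm)
  have hle : ∑ i, (loc i + dl i) ≤ 0 := by
    rw [Finset.sum_add_distrib, hsum]; omega
  have hzero : ∀ i, loc i + dl i = 0 := by
    have h0 : ∑ i, (loc i + dl i) = 0 :=
      le_antisymm hle (Finset.sum_nonneg fun i _ => hloc i)
    rw [Finset.sum_eq_zero_iff_of_nonneg fun i _ => hloc i] at h0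
    exact fun i => h0 i (Finset.mem_univ i)
  have hex : ∃ i₀, v i₀ = (.c m, none) ∧ v (i₀ + 1) = (.x 0, none) := by
    by_contra hcon
    push Not at hcon
    have : ∑ i, dl i = 0 := by
      refine Finset.sum_eq_zero fun i _ => ?_
      simp only [dl]
      rw [if_neg]
      rintro ⟨h, h'⟩
      exact hcon i h h'
    have h1 : ∑ i, (loc i + dl i) = 0 := Finset.sum_eq_zero fun i _ => hzero i
    rw [Finset.sum_add_distrib, hsum, this] at h1
    omega
  obtain ⟨i₀, hi₀, hi₀'⟩ := hex
  refine ⟨i₀, hi₀, hi₀', ?_, ?_⟩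
  · intro i hi
    have h1 := hzero i
    have h3 : dl i = 0 := by
      simp only [dl]
      rw [if_neg]
      rintro ⟨h, -⟩
      rw [h] at hi
      simp [isPQ, B.pq] at hi
    simp only [loc, hi, if_true, Bool.true_eq_false, false_and, if_false] at h1
    omega
  · intro i hi hi' hne
    have h1 := hzero i
    have h3 : dl i = 0 := by
      simp only [dl]
      rw [if_neg]
      rintro ⟨h, -⟩
      exact hne (hv (h.trans hi₀.symm))
    simp only [loc, hi, hi', Bool.false_eq_true, if_false, and_self, if_true] at h1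
    omega

end local_analysis

/-- A negative odd cycle of the gadget gives a satisfying assignment. -/
theorem sound (hv : Function.Injective v) (ha : ∀ i, HA n m K occ (v i) (v (i + 1)) (wt i))
    (hodd : Odd L) (h2 : 2 ≤ L) (hneg : ∑ i, wt i < 0) (hn : ∀ k < K, (occ k).2.2 < n) :
    ∃ σ : ℕ → Bool, ∀ j < m, ∃ k < K, (occ k).1 = j ∧ σ (occ k).2.2 = (occ k).2.1 := by
  obtain ⟨i₀, hi₀, hi₀', hpq, hnn⟩ := key_lemma hv ha hodd h2 hneg
  have two := two_ne hodd h2
  -- mids are traversed straight
  have mid : ∀ i a b, v i = (a, none) → v (i + 1) = (a, some b) → v (i + 2) = (b, none) := by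
    intro i a b h h'
    have h3 := ha (i + 1)
    rw [h'] at h3
    have e : i + 1 + 1 = i + 2 := by ring
    rw [e] at h3
    rcases h3.of_mid with h4 | h4
    · exact h4
    · exfalso
      have := hv (h4.trans h.symm)
      apply two
      linear_combination this
  -- leaving a vertex that is not `p k` or `q k`
  have leave : ∀ i a, v i = (a, none) → a.pq = false → a ≠ .c m →
      ∃ b w w', BA n K occ a b w w' ∧ v (i + 1) = (a, some b) ∧ v (i + 2) = (b, none) ∧
        wt (i + 1) = w' := by
    intro i a h hp hm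
    have hne : i ≠ i₀ := by
      rintro rfl
      rw [h] at hi₀
      exact hm (by simpa using hi₀)
    have h1 := ha i
    have hz : isPQ (v (i + 1)) = false → wt i = 0 := fun h' =>
      hnn i (by rw [h]; simp [isPQ, hp]) h' hne
    rw [h] at h1
    have hu : ∃ b w w', BA n K occ a b w w' ∧ v (i + 1) = (a, some b) := by
      generalize hu : v (i + 1) = u at h1 hz
      generalize hw : wt i = w at h1 hz
      cases h1 with
      | fwd1 h1 => exact ⟨_, _, _, h1, rfl⟩
      | rev2 h1 => simp [isPQ] at hz
      | ts => simp at hm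
      | st => simp [isPQ, B.pq] at hz
    obtain ⟨b, w, w', hb, hb'⟩ := hu
    have h3 := mid i a b h hb'
    refine ⟨b, w, w', hb, hb', h3, ?_⟩
    have h4 := ha (i + 1)
    have e : i + 1 + 1 = i + 2 := by ring
    rw [e, hb', h3] at h4
    exact h4.fn (.fwd2 hb)
  -- passing through `p k` or `q k`, entered by an arc of weight `1`
  have pass : ∀ i a, v i = (a, none) → a.pq = true → wt (i - 1) = 1 →
      ∃ b w w', BA n K occ a.other b w w' ∧ v (i + 2) = (a.other, none) ∧ wt (i + 1) = -1 ∧
        v (i + 4) = (b, none) ∧ w = 1 := by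
    intro i a h hp hw
    have hi : isPQ (v i) = true := by rw [h]; simp [isPQ, hp]
    have h1 := hpq i hi
    have h3 : wt i = -1 := by omega
    have h4 := (ha i).out_pq hi
    rcases h4 with h4 | ⟨-, h4, -⟩
    · omega
    rw [h] at h4
    simp only at h4
    have h5 := mid i a a.other h h4
    have h6 := ha (i + 1)
    have e : i + 1 + 1 = i + 2 := by ring
    rw [e, h4, h5] at h6
    have hw1 : wt (i + 1) = -1 := by
      generalize wt (i + 1) = w at h6
      cases a <;> simp only [B.pq, Bool.false_eq_true] at hp <;> simp only [B.other] at h6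
      · cases h6 with
        | fwd2 h => cases h; rfl
      · cases h6 with
        | fwd2 h => cases h; rfl
    have hi2 : isPQ (v (i + 2)) = true := by
      rw [h5]
      cases a <;> simp_all [isPQ, B.pq, B.other]
    have h7 := hpq (i + 2) hi2
    have e2 : i + 2 - 1 = i + 1 := by ring
    rw [e2, hw1] at h7
    have h8 := ha (i + 2)
    have h9 : wt (i + 2) = 1 := by omega
    rw [h9, h5] at h8
    have hu : ∃ b w w', BA n K occ a.other b w w' ∧ v (i + 2 + 1) = (a.other, some b) ∧
        w = 1 := by
      generalize v (i + 2 + 1) = u at h8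
      cases a <;> simp only [B.pq, Bool.false_eq_true] at hp <;> simp only [B.other] at h8 ⊢
      · cases h8 with
        | fwd1 h8 => exact ⟨_, _, _, h8, rfl, rfl⟩
      · cases h8 with
        | fwd1 h8 => exact ⟨_, _, _, h8, rfl, rfl⟩
    obtain ⟨b, w, w', hb, hb', hw'⟩ := hu
    have h10 := mid (i + 2) a.other b h5 hb'
    have e3 : i + 2 + 2 = i + 4 := by ring
    rw [e3] at h10
    exact ⟨b, w, w', hb, h5, hw1, h10, hw'⟩
  -- the variable part
  have hx : ∀ r < n, (∃ i, v i = (.x r, none)) → ∃ s, ∃ i, v i = (.y r s 0, none) := by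
    rintro r hr ⟨i, hi⟩
    obtain ⟨b, w, w', hb, h1, h3, h4⟩ := leave i _ hi rfl (by simp)
    cases hb with
    | xy r s => exact ⟨s, _, h3⟩
    | xc => omega
  have hy : ∀ r s k, k < K → (∃ i, v i = (.y r s k, none)) → (∃ i, v i = (.y r s (k + 1), none)) ∧
      ((occ k).2 = (s, r) → ∃ i, v i = (.q k, none) ∧ wt (i - 1) = -1) := by
    rintro r s k hk ⟨i, hi⟩
    obtain ⟨b, w, w', hb, h1, h3, h4⟩ := leave i _ hi rfl (by simp)
    cases hb with
    | yx => omega
    | yy _ _ _ _ _ h => exact ⟨⟨_, h3⟩, fun h' => absurd h' h⟩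
    | yp _ _ _ _ _ h =>
      have e : i + 2 - 1 = i + 1 := by ring
      obtain ⟨b, w, w', hb, h5, h6, h7, h8⟩ := pass (i + 2) _ h3 rfl (by rw [e]; exact h4)
      subst h8
      simp only [B.other] at hb h5
      cases hb with
      | qy r' s' k' _ _ h' =>
        rw [h] at h'
        simp only [Prod.mk.injEq] at h'
        obtain ⟨rfl, rfl⟩ := h'
        refine ⟨⟨_, h7⟩, fun _ => ⟨_, h5, ?_⟩⟩
        have e : i + 2 + 2 - 1 = i + 2 + 1 := by ring
        rw [e]
        exact h6
  have hyK : ∀ r s, r < n → (∃ i, v i = (.y r s 0, none)) →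
      (∀ k ≤ K, ∃ i, v i = (.y r s k, none)) := by
    intro r s hr h0 k
    induction k with
    | zero => exact fun _ => h0
    | succ k ih => exact fun hk => (hy r s k (by omega) (ih (by omega))).1
  have hx' : ∀ r < n, ∀ s, (∃ i, v i = (.y r s 0, none)) → ∃ i, v i = (.x (r + 1), none) := by
    rintro r hr s h0
    obtain ⟨i, hi⟩ := hyK r s hr h0 K le_rfl
    obtain ⟨b, w, w', hb, h1, h3, h4⟩ := leave i _ hi rfl (by simp)
    cases hb with
    | yx => exact ⟨_, h3⟩
    | yy => omega
    | yp => omega
  have hxall : ∀ r ≤ n, ∃ i, v i = (.x r, none) := by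
    intro r
    induction r with
    | zero => exact fun _ => ⟨_, hi₀'⟩
    | succ r ih =>
      intro hr
      obtain ⟨s, hs⟩ := hx r (by omega) (ih (by omega))
      exact hx' r (by omega) s hs
  have hs : ∀ r, ∃ s, r < n → ∃ i, v i = (.y r s 0, none) := by
    intro r
    by_cases hr : r < n
    · obtain ⟨s, hs⟩ := hx r hr (hxall r hr.le)
      exact ⟨s, fun _ => hs⟩
    · exact ⟨true, fun h => absurd h hr⟩
  choose s hs using hs
  -- the clause part
  have hc0 : ∃ i, v i = (.c 0, none) := by
    obtain ⟨i, hi⟩ := hxall n le_rfl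
    obtain ⟨b, w, w', hb, h1, h3, h4⟩ := leave i _ hi rfl (by simp)
    cases hb with
    | xy => omega
    | xc => exact ⟨_, h3⟩
  have hc : ∀ j < m, (∃ i, v i = (.c j, none)) → (∃ i, v i = (.c (j + 1), none)) ∧
      ∃ k < K, (occ k).1 = j ∧ ∃ i, v i = (.q k, none) ∧ wt (i - 1) = 1 := by
    rintro j hj ⟨i, hi⟩
    obtain ⟨b, w, w', hb, h1, h3, h4⟩ := leave i _ hi rfl (by simp; omega)
    cases hb with
    | cq _ k hk h =>
      have e : i + 2 - 1 = i + 1 := by ring
      obtain ⟨b, w, w', hb, h5, h6, h7, h8⟩ := pass (i + 2) _ h3 rfl (by rw [e]; exact h4)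
      subst h8
      simp only [B.other] at hb h5
      cases hb with
      | pc j' k' _ h' =>
        rw [h] at h'
        subst h'
        refine ⟨⟨_, h7⟩, k, hk, h, i + 2, h3, ?_⟩
        rw [e]; exact h4
  have hcall : ∀ j ≤ m, ∃ i, v i = (.c j, none) := by
    intro j
    induction j with
    | zero => exact fun _ => hc0
    | succ j ih => exact fun hj => (hc j (by omega) (ih (by omega))).1
  refine ⟨fun r => !(s r), fun j hj => ?_⟩
  obtain ⟨-, k, hk, hkj, i, hi, hwi⟩ := hc j hj (hcall j hj.le)
  refine ⟨k, hk, hkj, ?_⟩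
  by_contra hcon
  have hr := hn k hk
  have h1 : (occ k).2 = (s (occ k).2.2, (occ k).2.2) := by
    refine Prod.ext ?_ rfl
    simp only
    cases h : s (occ k).2.2 <;> cases h' : (occ k).2.1 <;> simp_all
  obtain ⟨i', hi', hwi'⟩ := (hy _ _ k hk (hyK _ _ hr (hs _ hr) k hk.le)).2 h1
  have := hv (hi.trans hi'.symm)
  rw [this] at hwi
  omega

end Pool.Agent.H64.ENC
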